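import Pool.Agent.PMT.Defs
import Pool.Agent.NHT.Defs4

/-!
# OCY: at most one cycle outside of a set which meets the short vectors evenly (helper19)
-/

set_option autoImplicit false

namespace Pool.Agent.NHT

open Pool.Agent.TRP

variable {ι : Type}

/-- For the classes with the label `q` there is a set `O` such that every short vector has an even number
of entries different from zero in `O`, the classes which are not in `O` contain at most one cycle, and
this cycle contains a class with a twist number of at least `T` in absolute value. -/
def OneCycle [DecidableEq ι] (J : Finset ι) (Cyc : Finset ι → Prop) (a : ι → ℤ) (p : ι → ℕ)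
    (T q : ℕ) : Prop :=
  ∃ O ⊆ J.filter (fun i => p i = q),
    (∀ d, Short (J.filter fun i => p i = q) a T d → Even (∑ i ∈ O, d i)) ∧
    (∀ C C', C ⊆ (J.filter fun i => p i = q) \ O → C' ⊆ (J.filter fun i => p i = q) \ O →
      MinCycle Cyc C → MinCycle Cyc C' → C = C') ∧
    ¬ Cyc (((J.filter fun i => p i = q) \ O).filter fun i => |a i| < T)

end Pool.Agent.NHT
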