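import Pool.Agent.OCY.Use
import Pool.Agent.OCY.Defs

/-!
# OCY: the alternative `OneCycle` gives a polynomial which is not zero (helper19)
-/

set_option autoImplicit false
set_option linter.unusedSectionVars false

open Submodule Module

namespace Pool.Agent.OCY

open Pool.Agent.SPT Pool.Agent.SPT.Rel Pool.Agent.TRL Pool.Agent.NHT Pool.Agent.TRA Pool.Agent.TRP

variable {ι V : Type} [DecidableEq ι] [DecidableEq V] [AddCommGroup V] [Module (ZMod 2) V]

/-- a smallest cycle -/
theorem exists_minCycle (Cyc : Finset ι → Prop) (P : Finset ι) (h : Cyc P) :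
    ∃ C ⊆ P, MinCycle Cyc C := by
  classical
  obtain ⟨C, hC, hmin⟩ := Finset.exists_min_image (P.powerset.filter Cyc) Finset.card
    ⟨P, Finset.mem_filter.2 ⟨Finset.mem_powerset_self P, h⟩⟩
  rw [Finset.mem_filter, Finset.mem_powerset] at hC
  refine ⟨C, hC.1, hC.2, fun i hi hcyc => ?_⟩
  have h1 := hmin (C.erase i) (Finset.mem_filter.2 ⟨Finset.mem_powerset.2
    ((Finset.erase_subset i C).trans hC.1), hcyc⟩)
  have h2 := Finset.card_erase_lt_of_mem hi
  omega

/-- at most one cycle -/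
theorem one_of_min {Q : Finset ι} {Cyc : Finset ι → Prop} {r : ι → V} (hB : Block Q Cyc r)
    (P : Finset ι) (_hP : P ⊆ Q) (h : ∀ C C', C ⊆ P → C' ⊆ P → MinCycle Cyc C → MinCycle Cyc C' →
      C = C') (hc : Cyc P) : ∃ i, ¬ Cyc (P.erase i) := by
  classical
  obtain ⟨C, hCP, hC⟩ := exists_minCycle Cyc P hc
  have hne : C.Nonempty := by
    rw [Finset.nonempty_iff_ne_empty]
    rintro rfl
    refine (hB.co ∅ (Finset.empty_subset _)).2 ?_ hC.1
    unfold Co
    rw [Finset.image_empty, Finset.sdiff_empty]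
  obtain ⟨i, hi⟩ := hne
  refine ⟨i, fun h1 => ?_⟩
  obtain ⟨C', hC'P, hC'⟩ := exists_minCycle Cyc _ h1
  have h2 := h C C' hCP (hC'P.trans (Finset.erase_subset i P)) hC hC'
  rw [h2] at hi
  exact (Finset.mem_erase.1 (hC'P hi)).1 rfl

/-- no cycle outside of `I`: the rows of `I` span -/
theorem cyc_mono {Q : Finset ι} {Cyc : Finset ι → Prop} {r : ι → V} (hB : Block Q Cyc r)
    {P P' : Finset ι} (hPP : P' ⊆ P) (hP : P ⊆ Q) (h : ¬ Cyc P) : ¬ Cyc P' := by
  rw [hB.co P hP] at h
  rw [hB.co P' (hPP.trans hP)]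
  unfold Co at h ⊢
  refine le_antisymm (span_mono (Finset.coe_subset.2 Finset.sdiff_subset)) ?_
  rw [← h]
  refine span_mono (Finset.coe_subset.2 (Finset.sdiff_subset_sdiff (Finset.Subset.refl _) ?_))
  exact Finset.image_mono r hPP

/-- **The alternative `OneCycle`**, in the form of `class_main3` -/
theorem onecycle_use (hMAIN : St_MAIN) (J Q : Finset ι) (Cyc : Finset ι → Prop) (r : ι → V)
    (p : ι → ℕ) (q : ℕ) (hQ : Q = (J.filter fun i => p i = q)) (hB : Block Q Cyc r)
    (hreg : ∀ Y ⊆ Q.image r, Reg Y) (a u : V → ℤ) (C T : ℕ)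
    (hF : Follows (Q.image r) a u C T) (h : OneCycle J Cyc (fun i => a (r i)) p T q) :
    NZu (Q.image r) u := by
  classical
  obtain ⟨O, hO, hev, hone, hlong⟩ := h
  rw [← hQ] at hO hev hone hlong
  by_cases hc : Cyc (Q \ O)
  · refine cycle_use hMAIN Q Cyc r hB (hreg _ (Finset.Subset.refl _)) a u C T hF O hev
      ⟨hO, one_of_min hB _ Finset.sdiff_subset hone hc, fun h1 => hlong ?_⟩
    have h2 : (Q \ O).filter (fun i => ¬ (T : ℤ) ≤ |a (r i)|) =
        (Q \ O).filter fun i => |a (r i)| < T := by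
      refine Finset.filter_congr fun i _ => ?_
      rw [not_le]
    rw [← h2]
    exact h1
  · by_cases hne : Q.Nonempty
    · obtain ⟨i, _⟩ := hne
      exact cycle_use hMAIN Q Cyc r hB (hreg _ (Finset.Subset.refl _)) a u C T hF O hev
        ⟨hO, ⟨i, cyc_mono hB (Finset.erase_subset i _) Finset.sdiff_subset hc⟩,
          cyc_mono hB (Finset.filter_subset _ _) Finset.sdiff_subset hc⟩
    · rw [Finset.not_nonempty_iff_eq_empty] at hne
      subst hne
      refine ⟨1, norm_one, ?_⟩
      rw [Finset.image_empty]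
      unfold PP
      rw [Finset.powerset_empty, Finset.sum_singleton, if_pos (by unfold Spans; rfl),
        Finset.prod_empty]
      exact one_ne_zero

end Pool.Agent.OCY
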