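import Pool.Agent.OCY.St

/-!
# OCY, module BAL (helper8): from the odd classes to all elements of the hyperplane
-/

set_option autoImplicit false

open Submodule Module

namespace Pool.Agent.OCY

open Pool.Agent.SPT.Odd Pool.Agent.TRL

namespace BAL

section

variable {V : Type} [AddCommGroup V] [Module (ZMod 2) V]

theorem aa (x : V) : x + x = 0 := ZModModule.add_self x

theorem c01 (c : ZMod 2) : c = 0 ∨ c = 1 := by
  revert c
  decide

/-- membership in a subspace enlarged by one vector -/
theorem mem_sup1 {G : Submodule (ZMod 2) V} {o x : V} :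
    x ∈ G ⊔ span (ZMod 2) {o} ↔ x ∈ G ∨ x + o ∈ G := by
  constructor
  · intro h
    obtain ⟨y, hy, z, hz, rfl⟩ := mem_sup.1 h
    obtain ⟨c, rfl⟩ := mem_span_singleton.1 hz
    rcases c01 c with rfl | rfl
    · left
      rw [zero_smul, add_zero]
      exact hy
    · right
      rw [one_smul, add_assoc, aa, add_zero]
      exact hy
  · have ho : o ∈ G ⊔ span (ZMod 2) {o} := mem_sup_right (mem_span_singleton_self o)
    rintro (h | h)
    · exact mem_sup_left h
    · have h2 : x + o + o ∈ G ⊔ span (ZMod 2) {o} := add_mem (mem_sup_left h) ho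
      rw [add_assoc, aa, add_zero] at h2
      exact h2

theorem finite_sp (A : Finset V) : FiniteDimensional (ZMod 2) (sp A) :=
  FiniteDimensional.span_finset (ZMod 2) A

theorem finite_sup (G : Submodule (ZMod 2) V) [FiniteDimensional (ZMod 2) G] (o : V) :
    FiniteDimensional (ZMod 2) (G ⊔ span (ZMod 2) {o} : Submodule (ZMod 2) V) := by
  infer_instance

theorem rk_sup1 {G : Submodule (ZMod 2) V} [FiniteDimensional (ZMod 2) G] {o : V} (ho : o ∉ G) :
    rk (G ⊔ span (ZMod 2) {o}) = rk G + 1 := by
  have hlt : G < G ⊔ span (ZMod 2) {o} := by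
    refine lt_of_le_of_ne le_sup_left fun h => ho ?_
    rw [h]
    exact mem_sup_right (mem_span_singleton_self o)
  have h1 : rk G < rk (G ⊔ span (ZMod 2) {o}) := finrank_lt_finrank_of_lt hlt
  have h2 : rk (G ⊔ span (ZMod 2) {o}) ≤ rk G + rk (span (ZMod 2) {o}) :=
    finrank_add_le_finrank_add_finrank _ _
  have h3 : rk (span (ZMod 2) {o}) ≤ 1 := by
    have := finrank_span_le_card (R := ZMod 2) ({o} : Set V)
    simpa using this
  omega

theorem sp_insert [DecidableEq V] (o : V) (A : Finset V) :
    sp (insert o A) = sp A ⊔ span (ZMod 2) {o} := by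
  show span (ZMod 2) ((insert o A : Finset V) : Set V) = _
  rw [Finset.coe_insert, span_insert, sup_comm]

/-- the class sums modulo a subspace enlarged by one vector -/
theorem cs_sup1 (F : Finset V) (u : V → ℤ) {G : Submodule (ZMod 2) V} {o : V} (ho : o ∉ G)
    (v : V) : cs F u (G ⊔ span (ZMod 2) {o}) v = cs F u G v + cs F u G (v + o) := by
  classical
  unfold cs
  rw [← Finset.sum_union]
  · refine Finset.sum_congr ?_ fun _ _ => rfl
    ext w
    rw [Finset.mem_union, Finset.mem_filter, Finset.mem_filter, Finset.mem_filter, mem_sup1,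
      ← and_or_left, add_assoc]
  · rw [Finset.disjoint_left]
    intro w h1 h2
    have h1' := (Finset.mem_filter.1 h1).2
    have h2' := (Finset.mem_filter.1 h2).2
    apply ho
    have h3 : w + v + (w + (v + o)) ∈ G := add_mem h1' h2'
    have h4 : w + v + (w + (v + o)) = o := by
      have : w + v + (w + (v + o)) = (w + w) + (v + v) + o := by abel
      rw [this, aa, aa, add_zero, zero_add]
    rw [h4] at h3
    exact h3

theorem cs_congr (F : Finset V) (u : V → ℤ) {G : Submodule (ZMod 2) V} {v w : V}
    (h : v + w ∈ G) : cs F u G v = cs F u G w := by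
  classical
  unfold cs
  refine Finset.sum_congr ?_ fun _ _ => rfl
  ext x
  rw [Finset.mem_filter, Finset.mem_filter]
  refine and_congr_right fun _ => ⟨fun hx => ?_, fun hx => ?_⟩
  · have h1 : x + v + (v + w) ∈ G := add_mem hx h
    have h2 : x + v + (v + w) = x + w := by
      have : x + v + (v + w) = x + (v + v) + w := by abel
      rw [this, aa, add_zero]
    rwa [h2] at h1
  · have h1 : x + w + (v + w) ∈ G := add_mem hx h
    have h2 : x + w + (v + w) = x + v := by
      have : x + w + (v + w) = x + v + (w + w) := by abel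
      rw [this, aa, add_zero]
    rwa [h2] at h1

theorem mem_inn {X : Finset V} {M : Submodule (ZMod 2) V} {v : V} :
    v ∈ inn X M ↔ v ∈ X ∧ v ∈ M := by
  classical
  exact Finset.mem_filter

theorem inn_sub (X : Finset V) (M : Submodule (ZMod 2) V) : inn X M ⊆ X := fun _ h =>
  (mem_inn.1 h).1

theorem out_sub (X : Finset V) (M : Submodule (ZMod 2) V) : out X M ⊆ X := by
  classical
  exact Finset.filter_subset _ _

theorem cs_ne {F : Finset V} {u : V → ℤ} {G : Submodule (ZMod 2) V} {v : V}
    (h : cs F u G v ≠ 0) : ∃ w ∈ F, w + v ∈ G := by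
  classical
  unfold cs at h
  obtain ⟨w, hw, -⟩ := Finset.exists_ne_zero_of_sum_ne_zero h
  exact ⟨w, (Finset.mem_filter.1 hw).1, (Finset.mem_filter.1 hw).2⟩

/-- independence of three vectors modulo a subspace -/
theorem li3 {G M : Submodule (ZMod 2) V} (hGM : G ≤ M) {o o' v : V} (ho : o ∈ M) (ho' : o' ∈ M)
    (hv : v ∉ M) (h1 : o ∉ G) (h2 : o' ∉ G ⊔ span (ZMod 2) {o}) :
    LinearIndependent (ZMod 2) ![G.mkQ o, G.mkQ o', G.mkQ v] := by
  rw [mem_sup1, not_or] at h2
  rw [Fintype.linearIndependent_iff]
  intro c hc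
  rw [Fin.sum_univ_three] at hc
  have hc' : c 0 • o + c 1 • o' + c 2 • v ∈ G := by
    rw [← Submodule.Quotient.mk_eq_zero]
    have : G.mkQ (c 0 • o + c 1 • o' + c 2 • v) = 0 := by
      rw [map_add, map_add, map_smul, map_smul, map_smul]
      exact hc
    exact this
  have h20 : c 2 = 0 := by
    rcases c01 (c 2) with h | h
    · exact h
    · exfalso
      apply hv
      rw [h, one_smul] at hc'
      have h3 : c 0 • o + c 1 • o' ∈ M := add_mem (M.smul_mem _ ho) (M.smul_mem _ ho')
      have h4 := M.sub_mem (hGM hc') h3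
      rwa [add_sub_cancel_left] at h4
  rw [h20, zero_smul, add_zero] at hc'
  have h10 : c 1 = 0 := by
    rcases c01 (c 1) with h | h
    · exact h
    · exfalso
      rw [h, one_smul] at hc'
      rcases c01 (c 0) with h0 | h0
      · rw [h0, zero_smul, zero_add] at hc'
        exact h2.1 hc'
      · rw [h0, one_smul, add_comm] at hc'
        exact h2.2 hc'
  rw [h10, zero_smul, add_zero] at hc'
  have h00 : c 0 = 0 := by
    rcases c01 (c 0) with h | h
    · exact h
    · exfalso
      rw [h, one_smul] at hc'
      exact h1 hc'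
  intro i
  fin_cases i
  · exact h00
  · exact h10
  · exact h20

/-- the seven points -/
theorem fano {X A : Finset V} (hX : Reg X) (hA : A ⊆ X) {M : Submodule (ZMod 2) V}
    (hGM : sp A ≤ M) {o o' v g : V} (hoX : o ∈ X) (hoX' : o' ∈ X) (hgX : g ∈ X) (ho : o ∈ M)
    (ho' : o' ∈ M) (hv : v ∉ M) (h1 : o ∉ sp A) (h2 : o' ∉ sp A ⊔ span (ZMod 2) {o})
    (hg : o' + o + g ∈ sp A) {f0 f1 f2 f3 : V} (hf0 : f0 ∈ X) (hf1 : f1 ∈ X) (hf2 : f2 ∈ X)
    (hf3 : f3 ∈ X) (k0 : f0 + v ∈ sp A) (k1 : f1 + (v + o) ∈ sp A) (k2 : f2 + (v + o') ∈ sp A)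
    (k3 : f3 + (v + o + o') ∈ sp A) : False := by
  classical
  have hR : Reg (X.image (sp A).mkQ) := hX.quotSpan hA rfl
  have hli := li3 hGM ho ho' hv h1 h2
  have key : ∀ {x y : V}, x + y ∈ sp A → (sp A).mkQ x = (sp A).mkQ y := by
    intro x y h
    rw [Submodule.mkQ_apply, Submodule.mkQ_apply, Submodule.Quotient.eq]
    have : x - y = x + y := by
      rw [sub_eq_add_neg, ZModModule.neg_eq_self]
    rw [this]
    exact h
  have hin : ∀ {x y : V}, x ∈ X → x + y ∈ sp A → (sp A).mkQ y ∈ X.image (sp A).mkQ := by
    intro x y hx h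
    rw [← key h]
    exact Finset.mem_image_of_mem _ hx
  refine hR.no_fano hli ?_
  intro z hz
  simp only [Finset.mem_insert, Finset.mem_singleton] at hz
  rcases hz with rfl | rfl | rfl | rfl | rfl | rfl | rfl
  · exact Finset.mem_image_of_mem _ hoX
  · exact Finset.mem_image_of_mem _ hoX'
  · exact hin hf0 k0
  · rw [← map_add]
    refine hin hgX ?_
    have : g + (o + o') = o' + o + g := by abel
    rw [this]
    exact hg
  · rw [← map_add]
    refine hin hf1 ?_
    rw [add_comm o v]
    exact k1
  · rw [← map_add]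
    refine hin hf2 ?_
    rw [add_comm o' v]
    exact k2
  · rw [← map_add, ← map_add]
    refine hin hf3 ?_
    have : o + o' + v = v + o + o' := by abel
    rw [this]
    exact k3

end

end BAL

open BAL in
theorem thm_BAL : St_BAL := by
  intro V _ _ _ X O u hH hB
  refine ⟨hB.1, ?_⟩
  obtain ⟨F, hF⟩ : ∃ F, F = out X (sp O) := ⟨_, rfl⟩
  rw [← hF]
  have hFX : F ⊆ X := by
    rw [hF]
    exact out_sub _ _
  have hOM : ∀ o ∈ O, o ∈ sp O := fun o ho => subset_span ho
  have main : ∀ (n : ℕ) (A : Finset V), (A \ O).card ≤ n → A ⊆ inn X (sp O) →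
      rk (sp A) + 2 = rk (sp X) → ∀ v ∈ sp X, v ∉ sp O → cs F u (sp A) v = 0 := by
    intro n
    induction n with
    | zero =>
      intro A hn _ hr v hv hv'
      have hAO : A ⊆ O := by
        rw [← Finset.sdiff_eq_empty_iff_subset, ← Finset.card_eq_zero]
        omega
      rw [hF]
      exact hB.2 A hAO hr v hv hv'
    | succ n ih =>
      intro A hn hA hr v hv hv'
      by_cases hAO : A ⊆ O
      · rw [hF]
        exact hB.2 A hAO hr v hv hv'
      obtain ⟨g, hgA, hgO⟩ := Finset.not_subset.1 hAO
      obtain ⟨A', hA'⟩ : ∃ A', A' = A.erase g := ⟨_, rfl⟩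
      have hA'A : A' ⊆ A := by
        rw [hA']
        exact Finset.erase_subset _ _
      have hins : insert g A' = A := by
        rw [hA']
        exact Finset.insert_erase hgA
      have hcard : (A' \ O).card ≤ n := by
        have h1 : A' \ O ⊂ A \ O := by
          rw [Finset.ssubset_iff_of_subset (Finset.sdiff_subset_sdiff hA'A (le_refl O))]
          refine ⟨g, Finset.mem_sdiff.2 ⟨hgA, hgO⟩, fun h => ?_⟩
          have := (Finset.mem_sdiff.1 h).1
          rw [hA'] at this
          exact Finset.notMem_erase g A this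
        have := Finset.card_lt_card h1
        omega
      have hA'i : A' ⊆ inn X (sp O) := hA'A.trans hA
      have hin : ∀ a ∈ A, a ∈ X ∧ a ∈ sp O := fun a ha => mem_inn.1 (hA ha)
      have hspA : sp A = sp A' ⊔ span (ZMod 2) {g} := by
        rw [← hins, sp_insert]
      have hfin : FiniteDimensional (ZMod 2) (sp A') := finite_sp A'
      have hfinA : FiniteDimensional (ZMod 2) (sp A) := finite_sp A
      have hfinO : FiniteDimensional (ZMod 2) (sp O) := finite_sp O
      by_cases hgG : g ∈ sp A'
      · have h1 : sp A = sp A' := by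
          rw [hspA]
          exact sup_eq_left.2 ((span_singleton_le_iff_mem _ _).2 hgG)
        rw [h1] at hr ⊢
        exact ih A' hcard hA'i hr v hv hv'
      have hrG : rk (sp A) = rk (sp A') + 1 := by
        rw [hspA]
        exact rk_sup1 hgG
      have hhyp := hH.hyp
      -- the subspaces `G ⊔ span {o}` for `o ∈ O`
      have hstep : ∀ o ∈ O, o ∉ sp A' → ∀ w ∈ sp X, w ∉ sp O →
          cs F u (sp A' ⊔ span (ZMod 2) {o}) w = 0 := by
        intro o ho hoG w hw hw'
        rw [← sp_insert]
        refine ih (insert o A') ?_ ?_ ?_ w hw hw'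
        · have : insert o A' \ O = A' \ O := Finset.insert_sdiff_of_mem _ ho
          rw [this]
          exact hcard
        · intro a ha
          rcases Finset.mem_insert.1 ha with rfl | ha
          · exact mem_inn.2 ⟨hH.sub ho, hOM _ ho⟩
          · exact hA'i ha
        · rw [sp_insert, rk_sup1 hoG]
          omega
      by_cases hcl : ∃ o ∈ O, o + g ∈ sp A'
      · obtain ⟨o, ho, hog⟩ := hcl
        have hoG : o ∉ sp A' := by
          intro h
          apply hgG
          have h1 := (sp A').sub_mem hog h
          rwa [add_sub_cancel_left] at h1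
        have h1 : sp A = sp A' ⊔ span (ZMod 2) {o} := by
          rw [hspA]
          apply le_antisymm
          · refine sup_le le_sup_left ((span_singleton_le_iff_mem _ _).2 ?_)
            rw [mem_sup1]
            right
            rw [add_comm]
            exact hog
          · refine sup_le le_sup_left ((span_singleton_le_iff_mem _ _).2 ?_)
            rw [mem_sup1]
            right
            exact hog
        rw [h1]
        exact hstep o ho hoG v hv hv'
      -- two elements of `O` in the other classes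
      have hex : ∃ o ∈ O, o ∉ sp A := by
        by_contra hne
        push Not at hne
        have h1 : sp O ≤ sp A := span_le.2 fun x hx => hne x hx
        have h2 : rk (sp O) ≤ rk (sp A) := Submodule.finrank_mono h1
        omega
      obtain ⟨o, ho, hoA⟩ := hex
      have hoG : o ∉ sp A' := fun h => hoA (by
        rw [hspA]
        exact mem_sup_left h)
      have hex' : ∃ o' ∈ O, o' ∉ sp A' ⊔ span (ZMod 2) {o} := by
        by_contra hne
        push Not at hne
        have h1 : sp O ≤ sp A' ⊔ span (ZMod 2) {o} := span_le.2 fun x hx => hne x hx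
        have h2 : rk (sp O) ≤ rk (sp A' ⊔ span (ZMod 2) {o}) := Submodule.finrank_mono h1
        rw [rk_sup1 hoG] at h2
        omega
      obtain ⟨o', ho', hoG'⟩ := hex'
      have hGO : sp A' ≤ sp O := span_le.2 fun x hx => (hin x (hA'A hx)).2
      have hAOs : sp A ≤ sp O := span_le.2 fun x hx => (hin x hx).2
      have hM : sp A ⊔ span (ZMod 2) {o} = sp O := by
        refine Submodule.eq_of_le_of_finrank_eq
          (sup_le hAOs ((span_singleton_le_iff_mem _ _).2 (hOM o ho))) ?_
        show rk (sp A ⊔ span (ZMod 2) {o}) = rk (sp O)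
        rw [rk_sup1 hoA]
        omega
      have hoG2 := hoG'
      rw [mem_sup1, not_or] at hoG2
      have hg3 : o' + o + g ∈ sp A' := by
        have h1 : o' ∈ sp A ⊔ span (ZMod 2) {o} := by
          rw [hM]
          exact hOM o' ho'
        rw [mem_sup1, hspA, mem_sup1, mem_sup1] at h1
        rcases h1 with (h1 | h1) | (h1 | h1)
        · exact absurd h1 hoG2.1
        · exact absurd ⟨o', ho', h1⟩ hcl
        · exact absurd h1 hoG2.2
        · exact h1
      have hvo : ∀ w ∈ sp O, v + w ∈ sp X ∧ v + w ∉ sp O := by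
        intro w hw
        refine ⟨add_mem hv (span_mono (Finset.coe_subset.2 hH.sub) hw), fun h => hv' ?_⟩
        have h1 := (sp O).sub_mem h hw
        rwa [add_sub_cancel_right] at h1
      have e1 := hstep o ho hoG v hv hv'
      have e2 := hstep o' ho' hoG2.1 v hv hv'
      have e3 := hstep o' ho' hoG2.1 (v + o) (hvo o (hOM o ho)).1 (hvo o (hOM o ho)).2
      rw [cs_sup1 F u hoG] at e1
      rw [cs_sup1 F u hoG2.1] at e2 e3
      have e4 : cs F u (sp A) v = cs F u (sp A') v + cs F u (sp A') (v + o + o') := by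
        rw [hspA, cs_sup1 F u hgG]
        congr 1
        apply cs_congr
        have h1 : v + g + (v + o + o') = (v + v) + (o' + o + g) := by abel
        rw [h1, aa, zero_add]
        exact hg3
      have e5 : cs F u (sp A') v = 0 := by
        by_contra hb
        obtain ⟨f0, hf0, k0⟩ := cs_ne hb
        obtain ⟨f1, hf1, k1⟩ := cs_ne (F := F) (u := u) (G := sp A') (v := v + o)
          (fun h => hb (by omega))
        obtain ⟨f2, hf2, k2⟩ := cs_ne (F := F) (u := u) (G := sp A') (v := v + o')
          (fun h => hb (by omega))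
        obtain ⟨f3, hf3, k3⟩ := cs_ne (F := F) (u := u) (G := sp A') (v := v + o + o')
          (fun h => hb (by omega))
        exact fano hH.reg (hA'A.trans (hA.trans (inn_sub _ _))) hGO (hH.sub ho)
          (hH.sub ho') (hin g hgA).1 (hOM o ho) (hOM o' ho') hv' hoG hoG' hg3 (hFX hf0) (hFX hf1)
          (hFX hf2) (hFX hf3) k0 k1 k2 k3
      rw [e4]
      omega
  intro A hA hr v hv hv'
  exact main _ A le_rfl hA hr v hv hv'

end Pool.Agent.OCY
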