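import Pool.Agent.OCY.St

/-!
# OCY, module CB: Cauchy and Binet
-/

set_option autoImplicit false

namespace Pool.Agent.OCY

private theorem CB_fiber {V : Type} {c : ℕ} (l : V → Fin c → ℤ) (u : V → ℤ) (x₀ : Fin c → V)
    (_h : Function.Injective x₀) :
    ∑ π : Equiv.Perm (Fin c), (∏ i, (u (x₀ (π i)) * l (x₀ (π i)) i)) *
      Matrix.det (fun i j => l (x₀ (π i)) j) =
    (∏ i, u (x₀ i)) * Matrix.det (fun i j => l (x₀ i) j) ^ 2 := by
  obtain ⟨M, hM⟩ : ∃ M : Matrix (Fin c) (Fin c) ℤ, M = fun i j => l (x₀ i) j := ⟨_, rfl⟩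
  have h1 : ∀ π : Equiv.Perm (Fin c), (∏ i, (u (x₀ (π i)) * l (x₀ (π i)) i)) *
      Matrix.det (fun i j => l (x₀ (π i)) j) =
      (∏ i, u (x₀ i)) * ((((Equiv.Perm.sign π : ℤˣ) : ℤ) * ∏ i, M (π i) i) * M.det) := by
    intro π
    have h2 : Matrix.det (fun i j => l (x₀ (π i)) j) = ((Equiv.Perm.sign π : ℤˣ) : ℤ) * M.det := by
      have h3 := Matrix.det_permute π M
      rw [hM] at h3 ⊢
      exact h3
    have h4 : ∏ i, u (x₀ (π i)) = ∏ i, u (x₀ i) := Equiv.prod_comp π (fun i => u (x₀ i))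
    rw [Finset.prod_mul_distrib, h4, h2]
    have h5 : ∏ i, l (x₀ (π i)) i = ∏ i, M (π i) i := by rw [hM]
    rw [h5]
    ring
  have h6 : Matrix.det (fun i j => l (x₀ i) j) = M.det := by rw [hM]
  have h7 : ∑ π : Equiv.Perm (Fin c), ((Equiv.Perm.sign π : ℤˣ) : ℤ) * ∏ i, M (π i) i = M.det :=
    (Matrix.det_apply' M).symm
  rw [Finset.sum_congr rfl fun π _ => h1 π, ← Finset.mul_sum, ← Finset.sum_mul, h6, h7, pow_two]

private theorem CB_exp {V : Type} {c : ℕ} (D : Finset V) (l : V → Fin c → ℤ) (u : V → ℤ) :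
    Matrix.det (fun i j => ∑ v ∈ D, u v * l v i * l v j) =
      ∑ x ∈ Fintype.piFinset (fun _ : Fin c => D),
        (∏ i, (u (x i) * l (x i) i)) * Matrix.det (fun i j => l (x i) j) := by
  classical
  have h1 := MultilinearMap.map_sum_finset
    (Matrix.detRowAlternating (R := ℤ) (n := Fin c)).toMultilinearMap
    (fun (i : Fin c) (v : V) => (u v * l v i) • l v) (fun _ : Fin c => D)
  have h2 : (fun i j => ∑ v ∈ D, u v * l v i * l v j : Matrix (Fin c) (Fin c) ℤ) =
      fun i => ∑ v ∈ D, (u v * l v i) • l v := by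
    funext i j
    rw [Finset.sum_apply]
    rfl
  have h3 : Matrix.det (fun i j => ∑ v ∈ D, u v * l v i * l v j) =
      (Matrix.detRowAlternating (R := ℤ) (n := Fin c)).toMultilinearMap
        (fun i => ∑ v ∈ D, (u v * l v i) • l v) := by
    rw [h2]
    rfl
  rw [h3, h1]
  refine Finset.sum_congr rfl fun x _ => ?_
  have h4 := MultilinearMap.map_smul_univ
    (Matrix.detRowAlternating (R := ℤ) (n := Fin c)).toMultilinearMap
    (fun i => u (x i) * l (x i) i) (fun i => l (x i))
  rw [h4]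
  rfl

theorem thm_CB : St_CB := by
  classical
  intro V _ c D l u f hf
  rw [CB_exp]
  -- the terms which are not injective
  have h1 : ∑ x ∈ Fintype.piFinset (fun _ : Fin c => D),
        (∏ i, (u (x i) * l (x i) i)) * Matrix.det (fun i j => l (x i) j) =
      ∑ x ∈ (Fintype.piFinset (fun _ : Fin c => D)).filter (fun x => Function.Injective x),
        (∏ i, (u (x i) * l (x i) i)) * Matrix.det (fun i j => l (x i) j) := by
    symm
    refine Finset.sum_subset (Finset.filter_subset _ _) fun x hx hx' => ?_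
    have h2 : ¬ Function.Injective x := fun h => hx' (Finset.mem_filter.2 ⟨hx, h⟩)
    rw [Function.Injective] at h2
    push Not at h2
    obtain ⟨i, j, hij, hne⟩ := h2
    have h3 : Matrix.det (fun i j => l (x i) j) = 0 := by
      refine Matrix.det_zero_of_row_eq hne ?_
      show l (x i) = l (x j)
      rw [hij]
    rw [h3, mul_zero]
  rw [h1]
  have hmaps : ∀ x ∈ (Fintype.piFinset (fun _ : Fin c => D)).filter
      (fun x => Function.Injective x), Finset.univ.image x ∈ D.powersetCard c := by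
    intro x hx
    rw [Finset.mem_filter, Fintype.mem_piFinset] at hx
    rw [Finset.mem_powersetCard]
    refine ⟨fun v hv => ?_, ?_⟩
    · obtain ⟨i, _, rfl⟩ := Finset.mem_image.1 hv
      exact hx.1 i
    · rw [Finset.card_image_of_injective _ hx.2, Finset.card_univ, Fintype.card_fin]
  rw [← Finset.sum_fiberwise_of_maps_to hmaps]
  refine Finset.sum_congr rfl fun W hW => ?_
  rw [Finset.mem_powersetCard] at hW
  -- an enumeration
  obtain ⟨x₀, hx₀, hx₀W⟩ : ∃ x₀ : Fin c → V, Function.Injective x₀ ∧ Finset.univ.image x₀ = W := by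
    refine ⟨fun i => ((W.equivFinOfCardEq hW.2).symm i : V), fun i j hij => ?_, ?_⟩
    · exact (W.equivFinOfCardEq hW.2).symm.injective (Subtype.ext hij)
    · ext v
      rw [Finset.mem_image]
      constructor
      · rintro ⟨i, _, rfl⟩
        exact ((W.equivFinOfCardEq hW.2).symm i).2
      · intro hv
        exact ⟨W.equivFinOfCardEq hW.2 ⟨v, hv⟩, Finset.mem_univ _, by
          rw [Equiv.symm_apply_apply]⟩
  have hmem : ∀ i, x₀ i ∈ W := fun i => by
    rw [← hx₀W]
    exact Finset.mem_image_of_mem _ (Finset.mem_univ i)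
  have h5 : ∏ v ∈ W, u v = ∏ i, u (x₀ i) := by
    rw [← hx₀W, Finset.prod_image (fun a _ b _ h => hx₀ h)]
  rw [h5, ← hx₀W, hf x₀ hx₀ (fun i => hW.1 (hmem i)), ← CB_fiber l u x₀ hx₀]
  refine Finset.sum_bij (fun (π : Equiv.Perm (Fin c)) _ => fun i => x₀ (π i)) ?_ ?_ ?_ ?_
  · intro π _
    rw [Finset.mem_filter, Finset.mem_filter, Fintype.mem_piFinset]
    refine ⟨⟨fun i => hW.1 (hmem _), fun i j hij => π.injective (hx₀ hij)⟩, ?_⟩
    ext v
    rw [Finset.mem_image, Finset.mem_image]
    constructor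
    · rintro ⟨i, _, rfl⟩
      exact ⟨π i, Finset.mem_univ _, rfl⟩
    · rintro ⟨i, _, rfl⟩
      exact ⟨π.symm i, Finset.mem_univ _, by rw [Equiv.apply_symm_apply]⟩
  · intro π _ π' _ h
    ext i
    exact congrArg Fin.val (hx₀ (congrFun h i))
  · intro x hx
    rw [Finset.mem_filter, Finset.mem_filter, Fintype.mem_piFinset] at hx
    obtain ⟨⟨_, hinj⟩, him⟩ := hx
    have h8 : ∀ i, ∃ j, x₀ j = x i := by
      intro i
      have h9 : x i ∈ Finset.univ.image x₀ := by
        rw [← him]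
        exact Finset.mem_image_of_mem _ (Finset.mem_univ i)
      obtain ⟨j, _, hj⟩ := Finset.mem_image.1 h9
      exact ⟨j, hj⟩
    choose g hg using h8
    have h7 : Function.Bijective g := by
      rw [← Finite.injective_iff_bijective]
      intro i j hij
      apply hinj
      rw [← hg i, ← hg j, hij]
    refine ⟨Equiv.ofBijective g h7, Finset.mem_univ _, ?_⟩
    funext i
    exact hg i
  · intro π _
    rfl

end Pool.Agent.OCY
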