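import Pool.Agent.OCY.ORD
import Pool.Agent.TRJ.Weighted

/-!
# OCY, module COH: coherence (helper19)
-/

set_option autoImplicit false
set_option linter.unusedSectionVars false

open Submodule Module Filter Topology

namespace Pool.Agent.OCY

open Pool.Agent.SPT.Odd Pool.Agent.TRL

theorem thm_COH' : St_COH := by
  classical
  intro V _ _ _ O hO ρ d ε hε h0 hs hsum
  -- the coefficient of a subspace
  obtain ⟨c, hc⟩ : ∃ c : Submodule (ZMod 2) V → ℝ, ∀ K, c K =
    ∑ A ∈ O.powerset.filter (fun A => sp A = K), (-2 : ℝ) ^ A.card := ⟨_, fun _ => rfl⟩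
  have hcK : ∀ A ⊆ O, 0 < (-1 : ℝ) ^ rk (sp A) * c (sp A) := by
    intro A hA
    have h1 := TRJ.pos_box' (inn O (sp A)) (fun h => hO (mem_inn.1 h).1) (fun _ => -1)
      (fun _ _ => ⟨le_refl _, by norm_num⟩)
    have hAi : A ⊆ inn O (sp A) := fun v hv =>
      mem_inn.2 ⟨hA hv, subset_span (Finset.mem_coe.2 hv)⟩
    have h2 : span (ZMod 2) ((inn O (sp A) : Finset V) : Set V) = sp A :=
      le_antisymm (span_le.2 fun v hv => (mem_inn.1 (Finset.mem_coe.1 hv)).2)
        (span_mono (Finset.coe_subset.2 hAi))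
    rw [h2] at h1
    refine lt_of_lt_of_eq h1 (congrArg _ ?_)
    rw [hc]
    unfold RR
    rw [← Finset.sum_filter]
    refine Finset.sum_congr ?_ fun W _ => ?_
    · ext W
      rw [Finset.mem_filter, Finset.mem_filter, Finset.mem_powerset, Finset.mem_powerset,
        bot_sup_eq]
      constructor
      · rintro ⟨h3, h4⟩
        exact ⟨fun v hv => (mem_inn.1 (h3 hv)).1, h4⟩
      · rintro ⟨h3, h4⟩
        refine ⟨fun v hv => mem_inn.2 ⟨h3 hv, ?_⟩, h4⟩
        rw [← h4]
        exact subset_span (Finset.mem_coe.2 hv)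
    · rw [← Finset.prod_const]
      refine Finset.prod_congr rfl fun v _ => by norm_num
  have h1 : ∑ K ∈ O.powerset.image sp, c K * ρ K = 0 := by
    rw [← hsum, ← Finset.sum_fiberwise_of_maps_to (s := O.powerset) (t := O.powerset.image sp)
      (g := sp) fun A hA => Finset.mem_image_of_mem _ hA]
    refine Finset.sum_congr rfl fun K _ => ?_
    rw [hc, Finset.sum_mul]
    refine Finset.sum_congr rfl fun A hA => ?_
    rw [(Finset.mem_filter.1 hA).2]
  have h2 : ∀ K ∈ O.powerset.image sp, 0 ≤ ε * (-1 : ℝ) ^ d * (c K * ρ K) := by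
    intro K hK
    obtain ⟨A, hA, rfl⟩ := Finset.mem_image.1 hK
    rw [Finset.mem_powerset] at hA
    by_cases hr : rk (sp A) = d
    · have h3 := hcK A hA
      rw [hr] at h3
      have h4 := mul_nonneg h3.le (hs A hA)
      refine le_of_le_of_eq h4 ?_
      ring
    · rw [h0 A hA hr, mul_zero, mul_zero]
  have h3 : ∑ K ∈ O.powerset.image sp, ε * (-1 : ℝ) ^ d * (c K * ρ K) = 0 := by
    rw [← Finset.mul_sum, h1, mul_zero]
  have h4 := (Finset.sum_eq_zero_iff_of_nonneg h2).1 h3
  intro A hA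
  by_cases hr : rk (sp A) = d
  · have h5 := h4 (sp A) (Finset.mem_image_of_mem _ (Finset.mem_powerset.2 hA))
    have h6 := hcK A hA
    rcases mul_eq_zero.1 h5 with h7 | h7
    · exfalso
      rcases mul_eq_zero.1 h7 with h8 | h8
      · rcases hε with rfl | rfl
        · exact one_ne_zero h8
        · exact (neg_ne_zero.2 one_ne_zero) h8
      · exact pow_ne_zero d (neg_ne_zero.2 one_ne_zero) h8
    · rcases mul_eq_zero.1 h7 with h8 | h8
      · rw [h8, mul_zero] at h6
        exact absurd h6 (lt_irrefl _)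
      · exact h8
  · exact h0 A hA hr

end Pool.Agent.OCY
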