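import Pool.Agent.OCY.St

/-!
# OCY: the last step
-/

set_option autoImplicit false

open Submodule Module

namespace Pool.Agent.OCY

open Pool.Agent.SPT.Odd Pool.Agent.TRL

namespace FIN

variable {V : Type} [AddCommGroup V] [Module (ZMod 2) V]

theorem add_self2 (v : V) : v + v = 0 := by
  have h : (2 : ZMod 2) • v = v + v := two_smul _ v
  rw [← h, show (2 : ZMod 2) = 0 from rfl, zero_smul]

theorem mkQ_eq2 (K : Submodule (ZMod 2) V) (x y : V) (h : x + y ∈ K) : K.mkQ x = K.mkQ y := by
  have h1 : K.mkQ (x + y) = 0 := by
    rw [Submodule.mkQ_apply, Submodule.Quotient.mk_eq_zero]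
    exact h
  have h2 : K.mkQ y + K.mkQ y = 0 := by rw [← map_add, add_self2, map_zero]
  calc K.mkQ x = K.mkQ x + (K.mkQ y + K.mkQ y) := by rw [h2, add_zero]
    _ = K.mkQ (x + y) + K.mkQ y := by rw [map_add]; abel
    _ = K.mkQ y := by rw [h1, zero_add]

theorem sp_insert [DecidableEq V] (A : Finset V) (p : V) :
    sp (insert p A) = sp A ⊔ span (ZMod 2) {p} := by
  unfold sp
  rw [Finset.coe_insert, Submodule.span_insert, sup_comm]

theorem mem_sup1 (K : Submodule (ZMod 2) V) (p x : V) :
    x ∈ K ⊔ span (ZMod 2) {p} ↔ x ∈ K ∨ x + p ∈ K := by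
  constructor
  · intro h
    obtain ⟨k, hk, q, hq, rfl⟩ := Submodule.mem_sup.1 h
    obtain ⟨c, rfl⟩ := Submodule.mem_span_singleton.1 hq
    rcases (by decide : ∀ c : ZMod 2, c = 0 ∨ c = 1) c with rfl | rfl
    · left
      rw [zero_smul, add_zero]
      exact hk
    · right
      rw [one_smul, add_assoc, add_self2, add_zero]
      exact hk
  · rintro (h | h)
    · exact Submodule.mem_sup_left h
    · have h1 : x = (x + p) + p := by rw [add_assoc, add_self2, add_zero]
      rw [h1]
      exact Submodule.add_mem_sup h (Submodule.mem_span_singleton_self p)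

theorem cs_split (F : Finset V) (u : V → ℤ) (K : Submodule (ZMod 2) V) (p v : V) (hp : p ∉ K) :
    cs F u (K ⊔ span (ZMod 2) {p}) v = cs F u K v + cs F u K (v + p) := by
  classical
  unfold cs
  rw [← Finset.sum_union]
  · apply Finset.sum_congr _ fun _ _ => rfl
    ext w
    simp only [Finset.mem_filter, Finset.mem_union, mem_sup1, ← add_assoc]
    tauto
  · rw [Finset.disjoint_left]
    intro w h1 h2
    rw [Finset.mem_filter] at h1 h2
    apply hp
    have h3 : p = (w + v) + (w + (v + p)) := by
      have e : (w + v) + (w + (v + p)) = (w + w) + (v + v) + p := by abel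
      rw [e, add_self2, add_self2, zero_add, zero_add]
    rw [h3]
    exact K.add_mem h1.2 h2.2

theorem cs_ne (F : Finset V) (u : V → ℤ) (K : Submodule (ZMod 2) V) (v : V)
    (h : cs F u K v ≠ 0) : ∃ x ∈ F, x + v ∈ K := by
  classical
  unfold cs at h
  obtain ⟨x, hx, _⟩ := Finset.exists_ne_zero_of_sum_ne_zero h
  rw [Finset.mem_filter] at hx
  exact ⟨x, hx.1, hx.2⟩

theorem exists_new (A O : Finset V) (hA : A ⊆ O) (h : rk (sp A) < rk (sp O)) :
    ∃ p ∈ O, p ∉ sp A := by
  by_contra hc
  push Not at hc
  have h1 : sp O ≤ sp A := Submodule.span_le.2 fun x hx => hc x hx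
  have h2 : sp A ≤ sp O := Submodule.span_mono (Finset.coe_subset.2 hA)
  rw [le_antisymm h2 h1] at h
  exact lt_irrefl _ h

theorem rk_insert [DecidableEq V] (A : Finset V) (p : V) (hp : p ∉ sp A) :
    rk (sp (insert p A)) = rk (sp A) + 1 := by
  have : FiniteDimensional (ZMod 2) (sp A) := FiniteDimensional.span_finset _ A
  rw [sp_insert]
  exact finrank_sup_one (sp A) p hp

end FIN

open FIN in
theorem thm_FIN : St_FIN := by
  intro V _ _ _ X O u hH h3
  classical
  have hOX : O ⊆ X := hH.sub
  have hmO : sp O ≤ sp X := Submodule.span_mono (Finset.coe_subset.2 hOX)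
  have key : ∀ m, 1 ≤ m → ∀ A ⊆ O, rk (sp A) + m = rk (sp X) → ∀ v ∈ sp X, v ∉ sp O →
      cs (out X (sp O)) u (sp A) v = 0 := by
    intro m
    induction m with
    | zero => intro h; omega
    | succ m ih =>
      intro _ A hA hr v hv hvO
      by_cases hm : m + 1 ≤ 3
      · exact h3 (m + 1) (by omega) hm A hA hr v hv hvO
      have hrO := hH.hyp
      -- the three elements
      obtain ⟨p, hpO, hp⟩ := exists_new A O hA (by omega)
      have hA1 : insert p A ⊆ O := Finset.insert_subset hpO hA
      have hr1 := rk_insert A p hp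
      obtain ⟨q, hqO, hq⟩ := exists_new (insert p A) O hA1 (by omega)
      have hA2 : insert q (insert p A) ⊆ O := Finset.insert_subset hqO hA1
      have hr2 := rk_insert (insert p A) q hq
      obtain ⟨r, hrrO, hrr⟩ := exists_new (insert q (insert p A)) O hA2 (by omega)
      have hpm : p ∈ sp O := Submodule.subset_span (Finset.mem_coe.2 hpO)
      have hqm : q ∈ sp O := Submodule.subset_span (Finset.mem_coe.2 hqO)
      have hrm : r ∈ sp O := Submodule.subset_span (Finset.mem_coe.2 hrrO)
      have hAp : sp A ≤ sp (insert p A) :=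
        Submodule.span_mono (Finset.coe_subset.2 (Finset.subset_insert _ _))
      have hAq : sp (insert p A) ≤ sp (insert q (insert p A)) :=
        Submodule.span_mono (Finset.coe_subset.2 (Finset.subset_insert _ _))
      have hAO : sp A ≤ sp O := Submodule.span_mono (Finset.coe_subset.2 hA)
      have hqA : q ∉ sp A := fun h => hq (hAp h)
      have hrA : r ∉ sp A := fun h => hrr (hAq (hAp h))
      -- the sums change the sign
      have flip : ∀ s ∈ O, s ∉ sp A → ∀ w ∈ sp X, w ∉ sp O →
          cs (out X (sp O)) u (sp A) (w + s) = - cs (out X (sp O)) u (sp A) w := by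
        intro s hs hsA w hw hwO
        have h1 := ih (by omega) (insert s A) (Finset.insert_subset hs hA)
          (by have := rk_insert A s hsA; omega) w hw hwO
        rw [sp_insert, cs_split _ _ _ _ _ hsA] at h1
        omega
      have shift : ∀ s ∈ sp O, ∀ w, w ∈ sp X → w ∉ sp O → w + s ∈ sp X ∧ w + s ∉ sp O := by
        intro s hs w hw hwO
        refine ⟨(sp X).add_mem hw (hmO hs), fun h => hwO ?_⟩
        have h1 : w = (w + s) + s := by rw [add_assoc, add_self2, add_zero]
        rw [h1]
        exact (sp O).add_mem h hs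
      by_contra hne
      obtain ⟨hv1, hv1'⟩ := shift p hpm v hv hvO
      obtain ⟨hv2, hv2'⟩ := shift q hqm v hv hvO
      have hpq : cs (out X (sp O)) u (sp A) (v + p + q) ≠ 0 := by
        rw [flip q hqO hqA _ hv1 hv1', flip p hpO hp _ hv hvO]
        simpa using hne
      have hpr : cs (out X (sp O)) u (sp A) (v + p + r) ≠ 0 := by
        rw [flip r hrrO hrA _ hv1 hv1', flip p hpO hp _ hv hvO]
        simpa using hne
      have hqr : cs (out X (sp O)) u (sp A) (v + q + r) ≠ 0 := by
        rw [flip r hrrO hrA _ hv2 hv2', flip q hqO hqA _ hv hvO]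
        simpa using hne
      obtain ⟨d, hd, hd'⟩ := cs_ne _ _ _ _ hne
      obtain ⟨a1, ha1, ha1'⟩ := cs_ne _ _ _ _ hpq
      obtain ⟨a2, ha2, ha2'⟩ := cs_ne _ _ _ _ hpr
      obtain ⟨a3, ha3, ha3'⟩ := cs_ne _ _ _ _ hqr
      have mX : ∀ x ∈ out X (sp O), x ∈ X ∧ x ∉ sp O := by
        intro x hx
        unfold out at hx
        exact Finset.mem_filter.1 hx
      have hK : (sp A) = span (ZMod 2) (A : Set V) := rfl
      have hreg : Reg (X.image (sp A).mkQ) := hH.reg.quotSpan (hA.trans hOX) hK
      have e0 := mkQ_eq2 _ _ _ hd'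
      have e1 := mkQ_eq2 _ _ _ ha1'
      have e2 := mkQ_eq2 _ _ _ ha2'
      have e3 := mkQ_eq2 _ _ _ ha3'
      have hmap : ∀ x y : V, (sp A).mkQ (x + y) = (sp A).mkQ x + (sp A).mkQ y := fun x y =>
        map_add _ x y
      apply hreg.no_fano_dual (a := (sp A).mkQ p) (b := (sp A).mkQ q) (c := (sp A).mkQ r)
        (d := (sp A).mkQ d)
      · rw [Fintype.linearIndependent_iff]
        intro g hg
        have hs : g 0 • p + g 1 • q + g 2 • r + g 3 • d ∈ sp A := by
          rw [← Submodule.Quotient.mk_eq_zero, ← Submodule.mkQ_apply]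
          rw [Fin.sum_univ_four] at hg
          simpa [map_add, map_smul] using hg
        have two : ∀ c : ZMod 2, c = 0 ∨ c = 1 := by decide
        have g3 : g 3 = 0 := by
          rcases two (g 3) with h | h
          · exact h
          · exfalso
            apply (mX d hd).2
            rw [h, one_smul] at hs
            have h1 : g 0 • p + g 1 • q + g 2 • r ∈ sp O :=
              (sp O).add_mem ((sp O).add_mem ((sp O).smul_mem _ hpm) ((sp O).smul_mem _ hqm))
                ((sp O).smul_mem _ hrm)
            exact ((sp O).add_mem_iff_right h1).1 (hAO hs)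
        rw [g3, zero_smul, add_zero] at hs
        have g2 : g 2 = 0 := by
          rcases two (g 2) with h | h
          · exact h
          · exfalso
            apply hrr
            rw [h, one_smul] at hs
            have h1 : g 0 • p + g 1 • q ∈ sp (insert q (insert p A)) :=
              (sp _).add_mem ((sp _).smul_mem _ (Submodule.subset_span (by simp)))
                ((sp _).smul_mem _ (Submodule.subset_span (by simp)))
            exact ((sp _).add_mem_iff_right h1).1 (hAq (hAp hs))
        rw [g2, zero_smul, add_zero] at hs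
        have g1 : g 1 = 0 := by
          rcases two (g 1) with h | h
          · exact h
          · exfalso
            apply hq
            rw [h, one_smul] at hs
            have h1 : g 0 • p ∈ sp (insert p A) :=
              (sp _).smul_mem _ (Submodule.subset_span (by simp))
            exact ((sp _).add_mem_iff_right h1).1 (hAp hs)
        rw [g1, zero_smul, add_zero] at hs
        have g0 : g 0 = 0 := by
          rcases two (g 0) with h | h
          · exact h
          · exfalso
            rw [h, one_smul] at hs
            exact hp hs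
        intro i
        fin_cases i
        · exact g0
        · exact g1
        · exact g2
        · exact g3
      · intro y hy
        simp only [Finset.mem_insert, Finset.mem_singleton] at hy
        rw [Finset.mem_image]
        rcases hy with rfl | rfl | rfl | rfl | rfl | rfl | rfl
        · exact ⟨p, hOX hpO, rfl⟩
        · exact ⟨q, hOX hqO, rfl⟩
        · exact ⟨r, hOX hrrO, rfl⟩
        · exact ⟨d, (mX d hd).1, rfl⟩
        · refine ⟨a1, (mX a1 ha1).1, ?_⟩
          rw [e1, hmap, hmap, e0]
          abel
        · refine ⟨a2, (mX a2 ha2).1, ?_⟩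
          rw [e2, hmap, hmap, e0]
          abel
        · refine ⟨a3, (mX a3 ha3).1, ?_⟩
          rw [e3, hmap, hmap, e0]
          abel
  intro v hv
  have hv' : v ∈ X ∧ v ∉ sp O := by
    unfold out at hv
    exact Finset.mem_filter.1 hv
  have hvs : v ∈ sp X := Submodule.subset_span (Finset.mem_coe.2 hv'.1)
  have hr0 : rk (sp (∅ : Finset V)) = 0 := by
    unfold sp
    rw [Finset.coe_empty, Submodule.span_empty]
    exact finrank_bot _ _
  have h1 := key (rk (sp X)) (by have := hH.hyp; omega) ∅ (Finset.empty_subset _)
    (by rw [hr0, zero_add]) v hvs hv'.2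
  have h2 : cs (out X (sp O)) u (sp (∅ : Finset V)) v = u v := by
    unfold cs
    have h3 : (out X (sp O)).filter (fun w => w + v ∈ sp (∅ : Finset V)) = {v} := by
      ext w
      rw [Finset.mem_filter, Finset.mem_singleton]
      unfold sp
      rw [Finset.coe_empty, Submodule.span_empty, Submodule.mem_bot]
      constructor
      · rintro ⟨_, h⟩
        have h4 : w = w + (v + v) := by rw [add_self2, add_zero]
        rw [h4, ← add_assoc, h, zero_add]
      · rintro rfl
        exact ⟨hv, add_self2 _⟩
    rw [h3, Finset.sum_singleton]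
  rw [h2] at h1
  exact h1

end Pool.Agent.OCY
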