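import Pool.Agent.OCY.St

/-!
# OCY, modules R1, R2, R3 (helper95): coranks one, two and three
-/

set_option autoImplicit false

open Submodule Module

namespace Pool.Agent.OCY

open Pool.Agent.SPT.Odd Pool.Agent.TRL

section

variable {V : Type} [AddCommGroup V] [Module (ZMod 2) V]

open Classical in
private noncomputable def Pr (F : Finset V) (x : V → ℝ) (K : Submodule (ZMod 2) V) (c : V) : ℝ :=
  ∏ w ∈ F.filter (fun w => w + c ∈ K), x w

private theorem yy_eq (F : Finset V) (x : V → ℝ) (K : Submodule (ZMod 2) V) (c : V) :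
    yy F x K c = Pr F x K c - 1 := rfl

open Classical in
private theorem Pr_eq (F : Finset V) (x : V → ℝ) (K : Submodule (ZMod 2) V) (c : V) :
    Pr F x K c = ∏ w ∈ F, if w + c ∈ K then x w else 1 := by
  unfold Pr
  rw [Finset.prod_filter]

private theorem Pr_empty (x : V → ℝ) (K : Submodule (ZMod 2) V) (c : V) : Pr ∅ x K c = 1 := by
  rw [Pr_eq, Finset.prod_empty]

private theorem Pr_mem [DecidableEq V] (F : Finset V) (x : V → ℝ) (K : Submodule (ZMod 2) V) (c e : V)
    (he : e ∉ F) (h : e + c ∈ K) : Pr (insert e F) x K c = x e * Pr F x K c := by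
  rw [Pr_eq, Pr_eq, Finset.prod_insert he, if_pos h]

private theorem Pr_not [DecidableEq V] (F : Finset V) (x : V → ℝ) (K : Submodule (ZMod 2) V) (c e : V)
    (he : e ∉ F) (h : e + c ∉ K) : Pr (insert e F) x K c = Pr F x K c := by
  rw [Pr_eq, Pr_eq, Finset.prod_insert he, if_neg h, one_mul]

private theorem Pr_one (F : Finset V) (x : V → ℝ) (K : Submodule (ZMod 2) V) (c : V)
    (h : ∀ w ∈ F, w + c ∉ K) : Pr F x K c = 1 := by
  rw [Pr_eq]
  exact Finset.prod_eq_one fun w hw => if_neg (h w hw)

/-- the difference of two elements of one class -/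
private theorem dif (K : Submodule (ZMod 2) V) (w c d : V) (h1 : w + c ∈ K) (h2 : w + d ∈ K) :
    c + d ∈ K := by
  have h3 : c + d = (w + c) + (w + d) := by
    rw [show (w + c) + (w + d) = (w + w) + (c + d) by abel, add_self_two, zero_add]
  rw [h3]
  exact add_mem h1 h2

private theorem mem_iff (K : Submodule (ZMod 2) V) (c v : V) :
    v ∈ K ⊔ span (ZMod 2) {c} ↔ v ∈ K ∨ v + c ∈ K := by
  refine ⟨mem_sup_one K c v, ?_⟩
  rintro (h | h)
  · exact mem_sup_left h
  · have h1 : v = (v + c) + c := by rw [add_assoc, add_self_two, add_zero]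
    rw [h1]
    exact add_mem (mem_sup_left h) (mem_sup_right (mem_span_singleton_self c))

private theorem Pr_split (F : Finset V) (x : V → ℝ) (K : Submodule (ZMod 2) V) (c g : V)
    (hc : c ∉ K) : Pr F x (K ⊔ span (ZMod 2) {c}) g = Pr F x K g * Pr F x K (g + c) := by
  classical
  rw [Pr_eq, Pr_eq, Pr_eq, ← Finset.prod_mul_distrib]
  refine Finset.prod_congr rfl fun w _ => ?_
  by_cases h1 : w + g ∈ K
  · have h2 : w + (g + c) ∉ K := fun h => by
      have h3 := dif K w g (g + c) h1 h
      rw [← add_assoc, add_self_two, zero_add] at h3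
      exact hc h3
    rw [if_pos h1, if_neg h2, if_pos (mem_sup_left h1), mul_one]
  · by_cases h2 : w + (g + c) ∈ K
    · rw [if_neg h1, if_pos h2, if_pos ((mem_iff K c _).2 (Or.inr (by rw [add_assoc]; exact h2))),
        one_mul]
    · rw [if_neg h1, if_neg h2, if_neg, one_mul]
      intro h
      rcases (mem_iff K c _).1 h with h | h
      · exact h1 h
      · rw [add_assoc] at h
        exact h2 h

private theorem RR_empty (K T : Submodule (ZMod 2) V) (x : V → ℝ) (h : K ≠ T) :
    RR ∅ K T x = 0 := by
  classical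
  unfold RR
  rw [Finset.powerset_empty, Finset.sum_singleton, Finset.coe_empty, span_empty, sup_bot_eq,
    if_neg h]

private theorem sup_mem (K : Submodule (ZMod 2) V) (e : V) (h : e ∈ K) :
    K ⊔ span (ZMod 2) {e} = K :=
  sup_eq_left.2 ((span_singleton_le_iff_mem e K).2 h)

private theorem r0 [DecidableEq V] (T : Submodule (ZMod 2) V) (x : V → ℝ) (F : Finset V) :
    (∀ v ∈ F, v ∈ T) → RR F T T x = Pr F x T 0 := by
  classical
  induction F using Finset.induction_on with
  | empty =>
    intro _
    unfold RR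
    rw [Finset.powerset_empty, Finset.sum_singleton, Finset.coe_empty, span_empty, sup_bot_eq,
      if_pos rfl, Finset.prod_empty, Pr_empty]
  | insert e F he ih =>
    intro hF
    have h1 : e ∈ T := hF e (Finset.mem_insert_self e F)
    have h2 := ih fun v hv => hF v (Finset.mem_insert_of_mem hv)
    rw [RR_insert _ _ _ _ e he, sup_mem T e h1, h2,
      Pr_mem F x T 0 e he (by rw [add_zero]; exact h1)]
    ring

private theorem r1 [DecidableEq V] (K T : Submodule (ZMod 2) V) (x : V → ℝ) (g : V) (hg : g ∉ K)
    (hT : T = K ⊔ span (ZMod 2) {g}) (F : Finset V) :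
    (∀ v ∈ F, v ∈ T) → RR F K T x = Pr F x K 0 * (Pr F x K g - 1) := by
  classical
  induction F using Finset.induction_on with
  | empty =>
    intro _
    rw [RR_empty, Pr_empty, Pr_empty, sub_self, mul_zero]
    rintro rfl
    exact hg (hT ▸ mem_sup_right (mem_span_singleton_self g))
  | insert e F he ih =>
    intro hF
    have h1 : e ∈ T := hF e (Finset.mem_insert_self e F)
    have h2 := ih fun v hv => hF v (Finset.mem_insert_of_mem hv)
    rw [RR_insert _ _ _ _ e he, h2]
    rw [hT] at h1
    rcases (mem_iff K g e).1 h1 with h3 | h3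
    · have h4 : e + g ∉ K := fun h => hg (by
        have h5 := add_mem h3 h
        rw [← add_assoc, add_self_two, zero_add] at h5
        exact h5)
      rw [sup_mem K e h3, h2, Pr_mem F x K 0 e he (by rw [add_zero]; exact h3),
        Pr_not F x K g e he h4]
      ring
    · have h4 : e + 0 ∉ K := fun h => hg (by
        rw [add_zero] at h
        have h5 := add_mem h h3
        rw [← add_assoc, add_self_two, zero_add] at h5
        exact h5)
      rw [sup_eq_of_add K e g (by rw [add_comm]; exact h3), ← hT,
        r0 T x F (fun v hv => hF v (Finset.mem_insert_of_mem hv)), Pr_not F x K 0 e he h4,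
        Pr_mem F x K g e he h3]
      conv_lhs => rw [hT]
      rw [Pr_split F x K g 0 hg, zero_add]
      ring

private theorem r1' [DecidableEq V] (K T : Submodule (ZMod 2) V) (x : V → ℝ) (c g e : V)
    (hc : c ∉ K) (hg : g ∉ K ⊔ span (ZMod 2) {c}) (hT : T = K ⊔ span (ZMod 2) {c} ⊔ span (ZMod 2) {g})
    (F : Finset V) (hF : ∀ v ∈ F, v ∈ T) (he : e + c ∈ K) :
    RR F (K ⊔ span (ZMod 2) {e}) T x =
      Pr F x K 0 * Pr F x K c * (Pr F x K g * Pr F x K (g + c) - 1) := by
  rw [sup_eq_of_add K e c (by rw [add_comm]; exact he), r1 _ T x g hg hT F hF,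
    Pr_split F x K c 0 hc, Pr_split F x K c g hc, zero_add]

private theorem nmem {K : Submodule (ZMod 2) V} {e c d : V} (h : e + c ∈ K) (hcd : c + d ∉ K) :
    e + d ∉ K := fun h1 => hcd (dif K e c d h h1)

private theorem r2 [DecidableEq V] (K T : Submodule (ZMod 2) V) (x : V → ℝ) (p q : V) (hp : p ∉ K)
    (hq : q ∉ K ⊔ span (ZMod 2) {p}) (hT : T = K ⊔ span (ZMod 2) {p} ⊔ span (ZMod 2) {q})
    (F : Finset V) :
    (∀ v ∈ F, v ∈ T) → RR F K T x = Pr F x K 0 * (Pr F x K p * Pr F x K q * Pr F x K (p + q) -
      Pr F x K p - Pr F x K q - Pr F x K (p + q) + 2) := by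
  classical
  have hq' : q ∉ K ∧ q + p ∉ K := by
    rw [mem_iff K p q] at hq
    push Not at hq
    exact hq
  have hpq : p + q ∉ K := by rw [add_comm]; exact hq'.2
  have hp2 : p ∉ K ⊔ span (ZMod 2) {q} := by
    rw [mem_iff K q p]
    rintro (h | h)
    · exact hp h
    · exact hpq h
  have e1 : p + (p + q) = q := by rw [← add_assoc, add_self_two, zero_add]
  have e2 : q + (p + q) = p := by
    rw [add_left_comm, add_self_two, add_zero]
  have hp3 : p ∉ K ⊔ span (ZMod 2) {p + q} := by
    rw [mem_iff K (p + q) p]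
    rintro (h | h)
    · exact hp h
    · rw [e1] at h
      exact hq'.1 h
  have hT2 : T = K ⊔ span (ZMod 2) {q} ⊔ span (ZMod 2) {p} := by rw [hT, sup_right_comm]
  have hT3 : T = K ⊔ span (ZMod 2) {p + q} ⊔ span (ZMod 2) {p} := by
    rw [sup_right_comm, hT]
    refine (sup_eq_of_add _ (p + q) q ?_).symm
    rw [e2]
    exact mem_sup_right (mem_span_singleton_self p)
  induction F using Finset.induction_on with
  | empty =>
    intro _
    rw [RR_empty, Pr_empty, Pr_empty, Pr_empty, Pr_empty]
    · ring
    · rintro rfl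
      exact hp (hT ▸ mem_sup_left (mem_sup_right (mem_span_singleton_self p)))
  | insert e F he ih =>
    intro hF
    have h1 : e ∈ T := hF e (Finset.mem_insert_self e F)
    have hF' : ∀ v ∈ F, v ∈ T := fun v hv => hF v (Finset.mem_insert_of_mem hv)
    have h2 := ih hF'
    rw [RR_insert _ _ _ _ e he, h2]
    rw [hT] at h1
    rcases (mem_iff _ q e).1 h1 with h3 | h3
    · rcases (mem_iff K p e).1 h3 with h4 | h4
      · have h5 : e + 0 ∈ K := by rw [add_zero]; exact h4
        rw [sup_mem K e h4, h2, Pr_mem F x K 0 e he h5,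
          Pr_not F x K p e he (nmem h5 (by rw [zero_add]; exact hp)),
          Pr_not F x K q e he (nmem h5 (by rw [zero_add]; exact hq'.1)),
          Pr_not F x K (p + q) e he (nmem h5 (by rw [zero_add]; exact hpq))]
        ring
      · rw [r1' K T x p q e hp hq hT F hF' h4,
          Pr_not F x K 0 e he (nmem h4 (by rw [add_zero]; exact hp)),
          Pr_mem F x K p e he h4,
          Pr_not F x K q e he (nmem h4 hpq),
          Pr_not F x K (p + q) e he (nmem h4 (by rw [e1]; exact hq'.1)), add_comm q p]
        ring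
    · rcases (mem_iff K p _).1 h3 with h4 | h4
      · rw [r1' K T x q p e hq'.1 hp2 hT2 F hF' h4,
          Pr_not F x K 0 e he (nmem h4 (by rw [add_zero]; exact hq'.1)),
          Pr_not F x K p e he (nmem h4 hq'.2),
          Pr_mem F x K q e he h4,
          Pr_not F x K (p + q) e he (nmem h4 (by rw [e2]; exact hp))]
        ring
      · have h5 : e + (p + q) ∈ K := by
          rw [add_comm p q, ← add_assoc]
          exact h4
        have e3 : (p + q) + p = q := by rw [add_comm, e1]
        have e4 : (p + q) + q = p := by rw [add_comm, e2]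
        rw [r1' K T x (p + q) p e hpq hp3 hT3 F hF' h5, e1,
          Pr_not F x K 0 e he (nmem h5 (by rw [add_zero]; exact hpq)),
          Pr_not F x K p e he (nmem h5 (by rw [e3]; exact hq'.1)),
          Pr_not F x K q e he (nmem h5 (by rw [e4]; exact hp)),
          Pr_mem F x K (p + q) e he h5]
        ring

private theorem r2' [DecidableEq V] (K T : Submodule (ZMod 2) V) (x : V → ℝ) (p q c e : V)
    (hp : p ∉ K) (hq : q ∉ K ⊔ span (ZMod 2) {p})
    (hc : c ∉ K ⊔ span (ZMod 2) {p} ⊔ span (ZMod 2) {q})
    (hT : T = K ⊔ span (ZMod 2) {p} ⊔ span (ZMod 2) {q} ⊔ span (ZMod 2) {c})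
    (F : Finset V) (hF : ∀ v ∈ F, v ∈ T ∧ v ∉ K ⊔ span (ZMod 2) {p} ⊔ span (ZMod 2) {q})
    (he : e + c ∈ K) :
    RR F (K ⊔ span (ZMod 2) {e}) T x =
      Pr F x K c * (Pr F x K (c + p) * Pr F x K (c + q) * Pr F x K (c + p + q) -
      Pr F x K (c + p) - Pr F x K (c + q) - Pr F x K (c + p + q) + 2) := by
  have hcK : c ∉ K := fun h => hc (mem_sup_left (mem_sup_left h))
  have hM : ∀ m ∈ K ⊔ span (ZMod 2) {p} ⊔ span (ZMod 2) {q}, Pr F x K m = 1 := by
    intro m hm
    refine Pr_one F x K m fun w hw h => (hF w hw).2 ?_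
    have h1 : w = (w + m) + m := by rw [add_assoc, add_self_two, add_zero]
    rw [h1]
    exact add_mem (mem_sup_left (mem_sup_left h)) hm
  have m0 : (0 : V) ∈ K ⊔ span (ZMod 2) {p} ⊔ span (ZMod 2) {q} := zero_mem _
  have mp : p ∈ K ⊔ span (ZMod 2) {p} ⊔ span (ZMod 2) {q} :=
    mem_sup_left (mem_sup_right (mem_span_singleton_self p))
  have mq : q ∈ K ⊔ span (ZMod 2) {p} ⊔ span (ZMod 2) {q} :=
    mem_sup_right (mem_span_singleton_self q)
  have hp2 : p ∉ K ⊔ span (ZMod 2) {c} := by
    rw [mem_iff K c p]
    rintro (h | h)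
    · exact hp h
    · refine hc ?_
      have h1 : c = (p + c) + p := by
        rw [add_comm p c, add_assoc, add_self_two, add_zero]
      rw [h1]
      exact add_mem (mem_sup_left (mem_sup_left h)) mp
  have hq2 : q ∉ K ⊔ span (ZMod 2) {c} ⊔ span (ZMod 2) {p} := by
    rw [sup_right_comm, mem_iff _ c q]
    rintro (h | h)
    · exact hq h
    · refine hc ?_
      have h1 : c = (q + c) + q := by
        rw [add_comm q c, add_assoc, add_self_two, add_zero]
      rw [h1]
      exact add_mem (mem_sup_left h) mq
  have hT2 : T = K ⊔ span (ZMod 2) {c} ⊔ span (ZMod 2) {p} ⊔ span (ZMod 2) {q} := by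
    rw [hT, sup_right_comm, sup_right_comm K]
  rw [sup_eq_of_add K e c (by rw [add_comm]; exact he),
    r2 _ T x p q hp2 hq2 hT2 F (fun v hv => (hF v hv).1), Pr_split F x K c 0 hcK,
    Pr_split F x K c p hcK, Pr_split F x K c q hcK, Pr_split F x K c (p + q) hcK, hM 0 m0, hM p mp,
    hM q mq, hM (p + q) (add_mem mp mq), zero_add, one_mul, one_mul, one_mul, one_mul,
    add_comm p c, add_comm q c, show p + q + c = c + p + q by abel]

end

theorem thm_R1 : St_R1 := by
  classical
  intro V _ _ _ F K T x hTf hKT hrk hF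
  obtain ⟨g, hgT, hgK⟩ : ∃ g ∈ T, g ∉ K := by
    by_contra hno
    push Not at hno
    have h1 : K = T := le_antisymm hKT hno
    rw [h1] at hrk
    omega
  have := hTf
  have : FiniteDimensional (ZMod 2) K := Submodule.finiteDimensional_of_le hKT
  have hT : T = K ⊔ span (ZMod 2) {g} := by
    symm
    refine Submodule.eq_of_le_of_finrank_eq (sup_le hKT ((span_singleton_le_iff_mem g T).2 hgT)) ?_
    rw [finrank_sup_one K g hgK]
    exact hrk
  rw [r1 K T x g hgK hT F fun v hv => (hF v hv).1,
    Pr_one F x K 0 fun w hw => by rw [add_zero]; exact (hF w hw).2, one_mul, Pr_eq]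
  congr 1
  refine Finset.prod_congr rfl fun w hw => if_pos ?_
  have h1 := (hF w hw).1
  rw [hT] at h1
  rcases (mem_iff K g w).1 h1 with h | h
  · exact absurd h (hF w hw).2
  · exact h

theorem thm_R2 : St_R2 := by
  classical
  intro V _ _ _ F K M T x p f _ hp hM hf hT hF
  subst hM
  have m0 : ∀ m ∈ K ⊔ span (ZMod 2) {p}, Pr F x K m = 1 := by
    intro m hm
    refine Pr_one F x K m fun w hw h => (hF w hw).2 ?_
    have h1 : w = (w + m) + m := by rw [add_assoc, add_self_two, add_zero]
    rw [h1]
    exact add_mem (mem_sup_left h) hm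
  rw [r2 K T x p f hp hf hT F (fun v hv => (hF v hv).1), m0 0 (zero_mem _),
    m0 p (mem_sup_right (mem_span_singleton_self p)), yy_eq, yy_eq, add_comm p f]
  ring

theorem thm_R3 : St_R3 := by
  classical
  intro V _ _ _ F K M T x p q f _ hp hq hM hf hT
  subst hM
  have tw : ∀ v : V, v + v = 0 := add_self_two
  have mp : p ∈ K ⊔ span (ZMod 2) {p} ⊔ span (ZMod 2) {q} :=
    mem_sup_left (mem_sup_right (mem_span_singleton_self p))
  have mq : q ∈ K ⊔ span (ZMod 2) {p} ⊔ span (ZMod 2) {q} :=
    mem_sup_right (mem_span_singleton_self q)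
  have hq' : q ∉ K ∧ q + p ∉ K := by
    rw [mem_iff K p q] at hq
    push Not at hq
    exact hq
  have hpq : p + q ∉ K := by rw [add_comm]; exact hq'.2
  -- the classes
  have hcl : ∀ m ∈ K ⊔ span (ZMod 2) {p} ⊔ span (ZMod 2) {q},
      f + m ∉ K ⊔ span (ZMod 2) {p} ⊔ span (ZMod 2) {q} ∧
      T = K ⊔ span (ZMod 2) {p} ⊔ span (ZMod 2) {q} ⊔ span (ZMod 2) {f + m} := by
    intro m hm
    constructor
    · intro h
      refine hf ?_
      have h1 : f = (f + m) + m := by rw [add_assoc, tw, add_zero]
      rw [h1]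
      exact add_mem h hm
    · rw [hT]
      refine sup_eq_of_add _ f (f + m) ?_
      rw [show f + m + f = (f + f) + m by abel, tw, zero_add]
      exact hm
  simp only [yy_eq]
  induction F using Finset.induction_on with
  | empty =>
    intro _
    rw [RR_empty, Pr_empty, Pr_empty, Pr_empty, Pr_empty]
    · ring
    · rintro rfl
      exact hp (hT ▸ mem_sup_left mp)
  | insert e F he ih =>
    intro hF
    have h1 := hF e (Finset.mem_insert_self e F)
    have hF' := fun v hv => hF v (Finset.mem_insert_of_mem (a := v) (b := e) hv)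
    have h2 := ih hF'
    rw [RR_insert _ _ _ _ e he, h2]
    have h3 := h1.1
    rw [hT] at h3
    rcases (mem_iff _ f e).1 h3 with h4 | h4
    · exact absurd h4 h1.2
    have a1 : f + p + p = f := by rw [add_assoc, tw, add_zero]
    have a2 : f + q + q = f := by rw [add_assoc, tw, add_zero]
    have a3 : f + q + p = f + p + q := by abel
    have a4 : f + p + q + p = f + q := by
      rw [show f + p + q + p = f + q + (p + p) by abel, tw, add_zero]
    have a5 : f + p + q + q = f + p := by rw [add_assoc, tw, add_zero]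
    have d1 : f + (f + p) = p := by rw [← add_assoc, tw, zero_add]
    have d2 : f + (f + q) = q := by rw [← add_assoc, tw, zero_add]
    have d3 : f + (f + p + q) = p + q := by
      rw [show f + (f + p + q) = (f + f) + (p + q) by abel, tw, zero_add]
    have d4 : f + p + (f + q) = p + q := by
      rw [show f + p + (f + q) = (f + f) + (p + q) by abel, tw, zero_add]
    have d5 : f + p + (f + p + q) = q := by
      rw [show f + p + (f + p + q) = (f + f) + (p + p) + q by abel, tw, tw, zero_add, zero_add]
    have d6 : f + q + (f + p + q) = p := by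
      rw [show f + q + (f + p + q) = (f + f) + (q + q) + p by abel, tw, tw, zero_add, zero_add]
    rcases (mem_iff _ q _).1 h4 with h5 | h5
    · rcases (mem_iff K p _).1 h5 with h6 | h6
      · -- class f
        have hc := hcl 0 (zero_mem _)
        rw [add_zero] at hc
        rw [r2' K T x p q f e hp hq hc.1 hc.2 F hF' h6, Pr_mem F x K f e he h6,
          Pr_not F x K (f + p) e he (nmem h6 (by rw [d1]; exact hp)),
          Pr_not F x K (f + q) e he (nmem h6 (by rw [d2]; exact hq'.1)),
          Pr_not F x K (f + p + q) e he (nmem h6 (by rw [d3]; exact hpq))]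
        ring
      · -- class f + p
        have h6 : e + (f + p) ∈ K := by rw [← add_assoc]; exact h6
        have hc := hcl p mp
        rw [r2' K T x p q (f + p) e hp hq hc.1 hc.2 F hF' h6, a1,
          Pr_not F x K f e he (nmem h6 (by rw [add_comm, d1]; exact hp)),
          Pr_mem F x K (f + p) e he h6,
          Pr_not F x K (f + q) e he (nmem h6 (by rw [d4]; exact hpq)),
          Pr_not F x K (f + p + q) e he (nmem h6 (by rw [d5]; exact hq'.1))]
        ring
    · rcases (mem_iff K p _).1 h5 with h6 | h6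
      · -- class f + q
        have h6 : e + (f + q) ∈ K := by rw [← add_assoc]; exact h6
        have hc := hcl q mq
        rw [r2' K T x p q (f + q) e hp hq hc.1 hc.2 F hF' h6, a2, a3, a5,
          Pr_not F x K f e he (nmem h6 (by rw [add_comm, d2]; exact hq'.1)),
          Pr_not F x K (f + p) e he (nmem h6 (by rw [add_comm, d4]; exact hpq)),
          Pr_mem F x K (f + q) e he h6,
          Pr_not F x K (f + p + q) e he (nmem h6 (by rw [d6]; exact hp))]
        ring
      · -- class f + p + q
        have h6 : e + (f + p + q) ∈ K := by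
          rw [show e + (f + p + q) = e + f + q + p by abel]
          exact h6
        have hc := hcl (p + q) (add_mem mp mq)
        rw [← add_assoc] at hc
        rw [r2' K T x p q (f + p + q) e hp hq hc.1 hc.2 F hF' h6, a4, a5, a2,
          Pr_not F x K f e he (nmem h6 (by rw [add_comm, d3]; exact hpq)),
          Pr_not F x K (f + p) e he (nmem h6 (by rw [add_comm, d5]; exact hq'.1)),
          Pr_not F x K (f + q) e he (nmem h6 (by rw [add_comm, d6]; exact hp)),
          Pr_mem F x K (f + p + q) e he h6]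
        ring

end Pool.Agent.OCY
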