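import Pool.Agent.OCY.Tools
import Pool.Agent.TRL.TU

/-!
# OCY, module R4: corank four (helper2)
-/

set_option autoImplicit false
set_option linter.unusedSectionVars false

open Submodule Module

namespace Pool.Agent.OCY

open Pool.Agent.SPT.Odd Pool.Agent.TRL

private theorem R4_key (M : Matrix (Fin 4) (Fin 4) ℤ) : M.det =
      M 0 0 * (M 1 1 * (M 2 2 * M 3 3 - M 2 3 * M 3 2) - M 1 2 * (M 2 1 * M 3 3 - M 2 3 * M 3 1) +
        M 1 3 * (M 2 1 * M 3 2 - M 2 2 * M 3 1)) -
      M 0 1 * (M 1 0 * (M 2 2 * M 3 3 - M 2 3 * M 3 2) - M 1 2 * (M 2 0 * M 3 3 - M 2 3 * M 3 0) +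
        M 1 3 * (M 2 0 * M 3 2 - M 2 2 * M 3 0)) +
      M 0 2 * (M 1 0 * (M 2 1 * M 3 3 - M 2 3 * M 3 1) - M 1 1 * (M 2 0 * M 3 3 - M 2 3 * M 3 0) +
        M 1 3 * (M 2 0 * M 3 1 - M 2 1 * M 3 0)) -
      M 0 3 * (M 1 0 * (M 2 1 * M 3 2 - M 2 2 * M 3 1) - M 1 1 * (M 2 0 * M 3 2 - M 2 2 * M 3 0) +
        M 1 2 * (M 2 0 * M 3 1 - M 2 1 * M 3 0)) := by
  rw [Matrix.det_succ_row_zero]
  simp [Fin.sum_univ_four, Matrix.det_fin_three, Fin.succAbove]
  ring

/-- the determinant of two rows and two unit rows -/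
private theorem R4_det (a b : Fin 4 → ℤ) (j : Fin 4) (hj : j ≠ 3) : ∃ k l : Fin 4,
    ∀ M : Matrix (Fin 4) (Fin 4) ℤ, (∀ i, M 0 i = a i) → (∀ i, M 1 i = b i) →
      (∀ i, M 2 i = (Pi.single k 1 : Fin 4 → ℤ) i) → (∀ i, M 3 i = (Pi.single l 1 : Fin 4 → ℤ) i) →
      M.det = a j * b 3 - a 3 * b j ∨ M.det = - (a j * b 3 - a 3 * b j) := by
  fin_cases j
  · refine ⟨1, 2, fun M h0 h1 h2 h3 => ?_⟩
    rw [R4_key]
    simp only [h0, h1, h2, h3, Pi.single_apply]
    simp
  · refine ⟨0, 2, fun M h0 h1 h2 h3 => ?_⟩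
    rw [R4_key]
    simp only [h0, h1, h2, h3, Pi.single_apply]
    simp
    right
    ring
  · refine ⟨0, 1, fun M h0 h1 h2 h3 => ?_⟩
    rw [R4_key]
    simp only [h0, h1, h2, h3, Pi.single_apply]
    simp
  · exact absurd rfl hj

/-- the combinations span iff the determinant is odd -/
private theorem R4_par {W : Type} [AddCommGroup W] [Module (ZMod 2) W] {c : ℕ} (t y : Fin c → W)
    (A : Matrix (Fin c) (Fin c) (ZMod 2)) (ht : LinearIndependent (ZMod 2) t)
    (hy : ∀ i, y i = ∑ j, A i j • t j) :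
    span (ZMod 2) (Set.range y) = span (ZMod 2) (Set.range t) ↔ A.det ≠ 0 := by
  constructor
  · intro h
    have h1 : ∀ j, ∃ b : Fin c → ZMod 2, t j = ∑ i, b i • y i := by
      intro j
      have h2 : t j ∈ span (ZMod 2) (Set.range y) := by
        rw [h]
        exact subset_span ⟨j, rfl⟩
      obtain ⟨b, hb⟩ := (mem_span_range_iff_exists_fun (ZMod 2)).1 h2
      exact ⟨b, hb.symm⟩
    choose B hB using h1
    have h3 : (Matrix.of B) * A = 1 := by
      ext j k
      have h4 : t j = ∑ k, ((Matrix.of B * A) j k) • t k := by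
        conv_lhs => rw [hB j]
        simp only [Matrix.mul_apply, Matrix.of_apply, Finset.sum_smul]
        rw [Finset.sum_comm]
        refine Finset.sum_congr rfl fun i _ => ?_
        rw [hy i, Finset.smul_sum]
        refine Finset.sum_congr rfl fun k _ => ?_
        rw [smul_smul]
      have h5 : ∑ k, ((Matrix.of B * A) j k -
          (1 : Matrix (Fin c) (Fin c) (ZMod 2)) j k) • t k = 0 := by
        simp only [sub_smul, Finset.sum_sub_distrib]
        rw [← h4]
        simp [Matrix.one_apply, ite_smul]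
      exact sub_eq_zero.1 ((Fintype.linearIndependent_iff.1 ht) _ h5 k)
    intro h0
    have h6 := congrArg Matrix.det h3
    rw [Matrix.det_mul, h0, mul_zero, Matrix.det_one] at h6
    exact zero_ne_one h6
  · intro h
    refine le_antisymm (span_le.2 ?_) (span_le.2 ?_)
    · rintro _ ⟨i, rfl⟩
      rw [SetLike.mem_coe, hy i]
      exact sum_mem fun j _ => smul_mem _ _ (subset_span ⟨j, rfl⟩)
    · rintro _ ⟨j, rfl⟩
      have h1 : IsUnit A.det := isUnit_iff_ne_zero.2 h
      have h2 : t j = ∑ i, (A⁻¹ j i) • y i := by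
        simp only [hy, Finset.smul_sum, smul_smul]
        rw [Finset.sum_comm]
        simp only [← Finset.sum_smul, ← Matrix.mul_apply]
        rw [Matrix.nonsing_inv_mul _ h1]
        simp [Matrix.one_apply, ite_smul]
      rw [SetLike.mem_coe, h2]
      exact sum_mem fun i _ => smul_mem _ _ (subset_span ⟨i, rfl⟩)

private theorem R4_abs {a : ℤ} (h : |a| ≤ 1) : a = 0 ∨ a = 1 ∨ a = -1 := by
  rw [abs_le] at h
  omega

private theorem R4_sgn {a b c d : ℤ} (ha : a = 1 ∨ a = -1) (hb : b = 1 ∨ b = -1)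
    (hc : c = 1 ∨ c = -1) (hd : d = 1 ∨ d = -1)
    (h : a * d - b * c = 0 ∨ a * d - b * c = 1 ∨ a * d - b * c = -1) : b * a = d * c := by
  rcases ha with rfl | rfl <;> rcases hb with rfl | rfl <;> rcases hc with rfl | rfl <;>
    rcases hd with rfl | rfl <;> revert h <;> decide

private theorem R4_pm {a : ℤ} (h : |a| ≤ 1) (h2 : ((a : ℤ) : ZMod 2) = 1) : a = 1 ∨ a = -1 := by
  rcases R4_abs h with rfl | rfl | rfl
  · rw [Int.cast_zero] at h2
    exact absurd h2 zero_ne_one
  · exact Or.inl rfl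
  · exact Or.inr rfl

private theorem R4_ze {a : ℤ} (h : |a| ≤ 1) (h2 : ((a : ℤ) : ZMod 2) ≠ 1) : a = 0 := by
  rcases R4_abs h with rfl | rfl | rfl
  · rfl
  · exact absurd (by decide) h2
  · exact absurd (by decide) h2

private theorem R4_four : ∀ j k l i : Fin 4, j ≠ k → j ≠ l → k ≠ l → j ≠ 3 → k ≠ 3 → l ≠ 3 →
    i = j ∨ i = k ∨ i = l ∨ i = 3 := by decide

private theorem R4_ex : ∀ j : Fin 4, j ≠ 3 → ∃ k l : Fin 4, j ≠ k ∧ j ≠ l ∧ k ≠ l ∧ k ≠ 3 ∧
    l ≠ 3 := by decide

section Main

variable {V : Type} [AddCommGroup V] [Module (ZMod 2) V] [DecidableEq V]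

/-- a basis of the span of `X` over `K` -/
private theorem R4_basis (X O : Finset V) (hH : Hyp X O) (A : Finset V) (hA : A ⊆ O)
    (hr : rk (sp A) + 4 = rk (sp X)) : ∃ s : Fin 4 → V, (∀ i, i ≠ 3 → s i ∈ O) ∧ s 3 ∈ X ∧
      s 3 ∉ sp O ∧ (∀ c : Fin 4 → ZMod 2, ∑ i, c i • s i ∈ sp A → c = 0) ∧
      sp X = sp A ⊔ span (ZMod 2) (Set.range s) := by
  have hfX : FiniteDimensional (ZMod 2) (sp X) := FiniteDimensional.span_finset _ _
  have hfO : FiniteDimensional (ZMod 2) (sp O) := FiniteDimensional.span_finset _ _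
  have hfA : FiniteDimensional (ZMod 2) (sp A) := FiniteDimensional.span_finset _ _
  have hAO : sp A ≤ sp O := span_mono (Finset.coe_subset.2 hA)
  have hOX : sp O ≤ sp X := span_mono (Finset.coe_subset.2 hH.sub)
  have hh : finrank (ZMod 2) (sp O) + 1 = finrank (ZMod 2) (sp X) := hH.hyp
  have hr0 : finrank (ZMod 2) (sp A) + 4 = finrank (ZMod 2) (sp X) := hr
  obtain ⟨p, hpO, hp⟩ := exists_out (sp A) (sp O) O rfl hAO (by
    show finrank (ZMod 2) (sp A) < finrank (ZMod 2) (sp O)
    omega)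
  have e1 := finrank_sup_one (sp A) p hp
  obtain ⟨K1, hK1⟩ : ∃ K1, K1 = sp A ⊔ span (ZMod 2) {p} := ⟨_, rfl⟩
  rw [← hK1] at e1
  have hfK1 : FiniteDimensional (ZMod 2) K1 := by
    rw [hK1]
    infer_instance
  have hpO' : p ∈ sp O := subset_span (Finset.mem_coe.2 hpO)
  have h1O : K1 ≤ sp O := by
    rw [hK1]
    exact sup_le hAO ((span_singleton_le_iff_mem _ _).2 hpO')
  obtain ⟨q, hqO, hq⟩ := exists_out K1 (sp O) O rfl h1O (by
    show finrank (ZMod 2) K1 < finrank (ZMod 2) (sp O)
    omega)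
  have e2 := finrank_sup_one K1 q hq
  obtain ⟨K2, hK2⟩ : ∃ K2, K2 = K1 ⊔ span (ZMod 2) {q} := ⟨_, rfl⟩
  rw [← hK2] at e2
  have hfK2 : FiniteDimensional (ZMod 2) K2 := by
    rw [hK2]
    infer_instance
  have hqO' : q ∈ sp O := subset_span (Finset.mem_coe.2 hqO)
  have h2O : K2 ≤ sp O := by
    rw [hK2]
    exact sup_le h1O ((span_singleton_le_iff_mem _ _).2 hqO')
  obtain ⟨r, hrO, hr'⟩ := exists_out K2 (sp O) O rfl h2O (by
    show finrank (ZMod 2) K2 < finrank (ZMod 2) (sp O)
    omega)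
  have hrO' : r ∈ sp O := subset_span (Finset.mem_coe.2 hrO)
  have hO3 : sp O = K2 ⊔ span (ZMod 2) {r} := by
    refine eq_sup K2 (sp O) h2O ?_ hrO' hr'
    show finrank (ZMod 2) K2 + 1 = finrank (ZMod 2) (sp O)
    omega
  obtain ⟨f, hfX', hf⟩ := exists_out (sp O) (sp X) X rfl hOX (by
    show finrank (ZMod 2) (sp O) < finrank (ZMod 2) (sp X)
    omega)
  have hX3 : sp X = sp O ⊔ span (ZMod 2) {f} :=
    eq_sup (sp O) (sp X) hOX hh (subset_span (Finset.mem_coe.2 hfX')) hf
  refine ⟨![p, q, r, f], fun i hi => ?_, hfX', hf, fun c hc => ?_, ?_⟩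
  · fin_cases i
    · exact hpO
    · exact hqO
    · exact hrO
    · exact absurd rfl hi
  · rw [Fin.sum_univ_four] at hc
    have hc' : c 0 • p + c 1 • q + c 2 • r + c 3 • f ∈ sp A := hc
    have hp2 : c 0 • p + c 1 • q + c 2 • r ∈ sp O :=
      add_mem (add_mem (smul_mem _ _ hpO') (smul_mem _ _ hqO')) (smul_mem _ _ hrO')
    have h3 : c 3 = 0 := by
      rcases zmod2_cases (c 3) with h | h
      · exact h
      · exfalso
        rw [h, one_smul] at hc'
        apply hf
        have h4 := sub_mem (hAO hc') hp2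
        rwa [add_sub_cancel_left] at h4
    rw [h3, zero_smul, add_zero] at hc'
    have h2 : c 2 = 0 := by
      rcases zmod2_cases (c 2) with h | h
      · exact h
      · exfalso
        rw [h, one_smul] at hc'
        apply hr'
        have h5 : c 0 • p + c 1 • q ∈ K2 := by
          rw [hK2, hK1]
          exact add_mem (smul_mem _ _ (mem_sup_left (mem_sup_right (mem_span_singleton_self p))))
            (smul_mem _ _ (mem_sup_right (mem_span_singleton_self q)))
        have h6 : c 0 • p + c 1 • q + r ∈ K2 := by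
          rw [hK2, hK1]
          exact mem_sup_left (mem_sup_left hc')
        have h4 := sub_mem h6 h5
        rwa [add_sub_cancel_left] at h4
    rw [h2, zero_smul, add_zero] at hc'
    have h1 : c 1 = 0 := by
      rcases zmod2_cases (c 1) with h | h
      · exact h
      · exfalso
        rw [h, one_smul] at hc'
        apply hq
        have h5 : c 0 • p ∈ K1 := by
          rw [hK1]
          exact smul_mem _ _ (mem_sup_right (mem_span_singleton_self p))
        have h6 : c 0 • p + q ∈ K1 := by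
          rw [hK1]
          exact mem_sup_left hc'
        have h4 := sub_mem h6 h5
        rwa [add_sub_cancel_left] at h4
    rw [h1, zero_smul, add_zero] at hc'
    have h0 : c 0 = 0 := by
      rcases zmod2_cases (c 0) with h | h
      · exact h
      · exfalso
        rw [h, one_smul] at hc'
        exact hp hc'
    funext i
    fin_cases i
    · exact h0
    · exact h1
    · exact h2
    · exact h3
  · rw [hX3, hO3, hK2, hK1]
    refine le_antisymm ?_ ?_
    · refine sup_le (sup_le (sup_le (sup_le le_sup_left ?_) ?_) ?_) ?_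
      · exact (span_singleton_le_iff_mem _ _).2 (mem_sup_right (subset_span ⟨0, rfl⟩))
      · exact (span_singleton_le_iff_mem _ _).2 (mem_sup_right (subset_span ⟨1, rfl⟩))
      · exact (span_singleton_le_iff_mem _ _).2 (mem_sup_right (subset_span ⟨2, rfl⟩))
      · exact (span_singleton_le_iff_mem _ _).2 (mem_sup_right (subset_span ⟨3, rfl⟩))
    · refine sup_le (le_sup_left.trans (le_sup_left.trans (le_sup_left.trans le_sup_left)))
        (span_le.2 ?_)
      rintro _ ⟨i, rfl⟩
      fin_cases i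
      · exact mem_sup_left (mem_sup_left (mem_sup_left (mem_sup_right (mem_span_singleton_self p))))
      · exact mem_sup_left (mem_sup_left (mem_sup_right (mem_span_singleton_self q)))
      · exact mem_sup_left (mem_sup_right (mem_span_singleton_self r))
      · exact mem_sup_right (mem_span_singleton_self f)

theorem R4_main (hCB : St_CB) (X O : Finset V) (u : V → ℤ) (hH : Hyp X O) (hB : Bal X O O u)
    (A : Finset V) (hA : A ⊆ O) (hr : rk (sp A) + 4 = rk (sp X)) :
    tau (out X (sp O)) (sp A) (sp X) u 4 = 0 := by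
  classical
  obtain ⟨s, hsO, hsX, hs3, hsi, hsp⟩ := R4_basis X O hH A hA hr
  have hfX : FiniteDimensional (ZMod 2) (sp X) := FiniteDimensional.span_finset _ _
  have hfO : FiniteDimensional (ZMod 2) (sp O) := FiniteDimensional.span_finset _ _
  have hfA : FiniteDimensional (ZMod 2) (sp A) := FiniteDimensional.span_finset _ _
  have hAO : sp A ≤ sp O := span_mono (Finset.coe_subset.2 hA)
  have hOX : sp O ≤ sp X := span_mono (Finset.coe_subset.2 hH.sub)
  have hAX : sp A ≤ sp X := hAO.trans hOX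
  obtain ⟨K, hK⟩ : ∃ K, K = sp A := ⟨_, rfl⟩
  obtain ⟨D, hD⟩ : ∃ D, D = out X (sp O) := ⟨_, rfl⟩
  have hDX : ∀ v ∈ D, v ∈ X ∧ v ∉ sp O := by
    intro v hv
    rw [hD] at hv
    unfold out at hv
    rwa [Finset.mem_filter] at hv
  have hreg : Reg (X.image K.mkQ) := by
    have h := hH.reg.quotSpan (hA.trans hH.sub) hK
    exact h
  obtain ⟨t, ht⟩ : ∃ t : Fin 4 → V ⧸ K, t = fun i => K.mkQ (s i) := ⟨_, rfl⟩
  have hti : ∀ i, t i = K.mkQ (s i) := fun i => by rw [ht]
  have hsX' : ∀ i, s i ∈ X := by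
    intro i
    by_cases h : i = 3
    · rw [h]
      exact hsX
    · exact hH.sub (hsO i h)
  have hmk : ∀ v : V, K.mkQ v = 0 ↔ v ∈ sp A := by
    intro v
    rw [Submodule.mkQ_apply, Submodule.Quotient.mk_eq_zero, hK]
  have hli : LinearIndependent (ZMod 2) t := by
    rw [Fintype.linearIndependent_iff]
    intro c hc i
    have h1 : c = 0 := by
      refine hsi c ((hmk _).1 ?_)
      rw [map_sum, ← hc]
      refine Finset.sum_congr rfl fun i _ => ?_
      rw [map_smul, hti]
    rw [h1]
    rfl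
  have hspX : span (ZMod 2) (Set.range t) = map K.mkQ (sp X) := by
    rw [hsp, Submodule.map_sup]
    have h1 : map K.mkQ (sp A) = ⊥ := by
      refine LinearMap.le_ker_iff_map.1 ?_
      rw [Submodule.ker_mkQ, hK]
    rw [h1, bot_sup_eq, Submodule.map_span, ht]
    congr 1
    rw [← Set.range_comp]
    rfl
  have hspan : span (ZMod 2) (Set.range t) =
      span (ZMod 2) ((X.image K.mkQ : Finset (V ⧸ K)) : Set (V ⧸ K)) := by
    rw [hspX, Submodule.map_span, Finset.coe_image]
  obtain ⟨L, hL1, hL2, hL3, hL4⟩ := hreg.tu hli (fun i => by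
    rw [hti]
    exact Finset.mem_image_of_mem _ (hsX' i)) hspan
  have himg : ∀ v ∈ X, K.mkQ v ∈ X.image K.mkQ := fun v hv => Finset.mem_image_of_mem _ hv
  -- uniqueness of the coordinates
  have hco : ∀ v ∈ X, ∀ y : Fin 4 → ZMod 2, K.mkQ v = ∑ i, y i • t i →
      ∀ i, ((L (K.mkQ v) i : ℤ) : ZMod 2) = y i := by
    intro v hv y hy i
    have h1 : ∑ i, (((L (K.mkQ v) i : ℤ) : ZMod 2) - y i) • t i = 0 := by
      simp only [sub_smul, Finset.sum_sub_distrib]
      rw [← hL2 _ (himg v hv), ← hy, sub_self]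
    exact sub_eq_zero.1 ((Fintype.linearIndependent_iff.1 hli) _ h1 i)
  have hodd3 : ∀ v ∈ D, ((L (K.mkQ v) 3 : ℤ) : ZMod 2) = 1 := by
    intro v hv
    obtain ⟨hvX, hvO⟩ := hDX v hv
    rcases zmod2_cases ((L (K.mkQ v) 3 : ℤ) : ZMod 2) with h | h
    · exfalso
      apply hvO
      have h1 := hL2 _ (himg v hvX)
      have h2 : K.mkQ (v - ∑ i, ((L (K.mkQ v) i : ℤ) : ZMod 2) • s i) = 0 := by
        rw [map_sub, map_sum, sub_eq_zero]
        conv_lhs => rw [h1]
        refine Finset.sum_congr rfl fun i _ => ?_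
        rw [map_smul, hti]
      rw [hmk] at h2
      have h3 : ∑ i, ((L (K.mkQ v) i : ℤ) : ZMod 2) • s i ∈ sp O := by
        refine sum_mem fun i _ => ?_
        by_cases h4 : i = 3
        · rw [h4, h, zero_smul]
          exact zero_mem _
        · exact smul_mem _ _ (subset_span (Finset.mem_coe.2 (hsO i h4)))
      have h5 := add_mem (hAO h2) h3
      rwa [sub_add_cancel] at h5
    · exact h
  -- the classes
  have hcl : ∀ j k l : Fin 4, j ≠ k → j ≠ l → k ≠ l → j ≠ 3 → k ≠ 3 → l ≠ 3 → ∀ v ∈ D,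
      (((L (K.mkQ v) j : ℤ) : ZMod 2) = 1 ↔
        v + (s 3 + s j) ∈ sp A ⊔ span (ZMod 2) {s k} ⊔ span (ZMod 2) {s l}) := by
    intro j k l hjk hjl hkl hj3 hk3 hl3 v hv
    obtain ⟨hvX, hvO⟩ := hDX v hv
    constructor
    · intro h
      obtain ⟨c, hc⟩ : ∃ c : Fin 4 → ZMod 2, c = fun i => ((L (K.mkQ v) i : ℤ) : ZMod 2) :=
        ⟨_, rfl⟩
      have hc3 : c 3 = 1 := by rw [hc]; exact hodd3 v hv
      have hcj : c j = 1 := by rw [hc]; exact h
      have h1 : K.mkQ v = ∑ i, c i • t i := by
        conv_lhs => rw [hL2 _ (himg v hvX)]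
        rw [hc]
      have h2 : c = Pi.single j 1 + Pi.single 3 1 + Pi.single k (c k) + Pi.single l (c l) := by
        funext i
        simp only [Pi.add_apply, Pi.single_apply]
        rcases R4_four j k l i hjk hjl hkl hj3 hk3 hl3 with rfl | rfl | rfl | rfl
        · simp [hjk, hjl, hj3, hcj]
        · simp [hjk.symm, hkl, hk3]
        · simp [hjl.symm, hkl.symm, hl3]
        · simp [hj3.symm, hk3.symm, hl3.symm, hc3]
      have h3 : K.mkQ v = K.mkQ (s j + s 3 + c k • s k + c l • s l) := by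
        rw [h1, h2]
        simp only [Pi.add_apply, add_smul, Finset.sum_add_distrib, map_add, map_smul, ← hti]
        simp only [Pi.single_apply, ite_smul, one_smul, zero_smul, Finset.sum_ite_eq',
          Finset.mem_univ, if_true]
        simp [hjk.symm, hjl.symm, hkl, hkl.symm, hk3, hl3]
      rw [← sub_eq_zero, ← map_sub, hmk] at h3
      have h4 : v + (s 3 + s j) = (v - (s j + s 3 + c k • s k + c l • s l)) + c k • s k +
          c l • s l + ((s j + s j) + (s 3 + s 3)) := by abel
      rw [h4, add_self_two, add_self_two, add_zero, add_zero]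
      exact add_mem (mem_sup_left (add_mem (mem_sup_left h3)
        (mem_sup_right (smul_mem _ _ (mem_span_singleton_self _)))))
        (mem_sup_right (smul_mem _ _ (mem_span_singleton_self _)))
    · intro h
      rw [mem_sup] at h
      obtain ⟨a, ha, b, hb, hab⟩ := h
      rw [mem_sup] at ha
      obtain ⟨a', ha', d, hd, had⟩ := ha
      rw [mem_span_singleton] at hb hd
      obtain ⟨cb, rfl⟩ := hb
      obtain ⟨cd, rfl⟩ := hd
      have h1 : v = a' + cd • s k + cb • s l + s 3 + s j := by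
        rw [had, hab]
        have h4 : v + (s 3 + s j) + s 3 + s j = v + ((s 3 + s 3) + (s j + s j)) := by abel
        rw [h4, add_self_two, add_self_two, add_zero, add_zero]
      have h2 : K.mkQ a' = 0 := (hmk a').2 ha'
      have h3 : K.mkQ v = ∑ i, (Pi.single j 1 + Pi.single 3 1 + Pi.single k cd +
          Pi.single l cb : Fin 4 → ZMod 2) i • t i := by
        rw [h1]
        simp only [Pi.add_apply, add_smul, Finset.sum_add_distrib, map_add, map_smul, ← hti, h2]
        simp only [Pi.single_apply, ite_smul, one_smul, zero_smul, Finset.sum_ite_eq',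
          Finset.mem_univ, if_true, zero_add]
        abel
      rw [hco v hvX _ h3 j]
      simp [Pi.add_apply, hjk, hjl, hj3]
  -- the constant product
  have hsig : ∀ j : Fin 4, j ≠ 3 → ∃ σ : ℤ, ∀ v ∈ D, ((L (K.mkQ v) j : ℤ) : ZMod 2) = 1 →
      L (K.mkQ v) 3 * L (K.mkQ v) j = σ := by
    intro j hj
    by_cases hex : ∃ w ∈ D, ((L (K.mkQ w) j : ℤ) : ZMod 2) = 1
    · obtain ⟨w, hw, hwj⟩ := hex
      refine ⟨L (K.mkQ w) 3 * L (K.mkQ w) j, fun v hv hvj => ?_⟩
      obtain ⟨hvX, -⟩ := hDX v hv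
      obtain ⟨hwX, -⟩ := hDX w hw
      obtain ⟨k, l, hkl⟩ := R4_det (L (K.mkQ v)) (L (K.mkQ w)) j hj
      have h1 := hL4 ![K.mkQ v, K.mkQ w, t k, t l] (fun i => by
        fin_cases i
        · exact himg v hvX
        · exact himg w hwX
        · show t k ∈ _
          rw [hti]
          exact himg _ (hsX' k)
        · show t l ∈ _
          rw [hti]
          exact himg _ (hsX' l))
      have h2 := hkl (Matrix.of fun i j => L ((![K.mkQ v, K.mkQ w, t k, t l] :
        Fin 4 → V ⧸ K) i) j) (fun i => rfl) (fun i => rfl)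
        (fun i => congrFun (hL1 k) i) (fun i => congrFun (hL1 l) i)
      have h3 : L (K.mkQ v) j * L (K.mkQ w) 3 - L (K.mkQ v) 3 * L (K.mkQ w) j = 0 ∨
          L (K.mkQ v) j * L (K.mkQ w) 3 - L (K.mkQ v) 3 * L (K.mkQ w) j = 1 ∨
          L (K.mkQ v) j * L (K.mkQ w) 3 - L (K.mkQ v) 3 * L (K.mkQ w) j = -1 := by
        omega
      exact R4_sgn (R4_pm (hL3 _ (himg v hvX) j) hvj) (R4_pm (hL3 _ (himg v hvX) 3) (hodd3 v hv))
        (R4_pm (hL3 _ (himg w hwX) j) hwj) (R4_pm (hL3 _ (himg w hwX) 3) (hodd3 w hw)) h3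
    · exact ⟨0, fun v hv hvj => absurd ⟨v, hv, hvj⟩ hex⟩
  -- the last row is zero
  have hrow : ∀ j : Fin 4, ∑ v ∈ D, u v * L (K.mkQ v) 3 * L (K.mkQ v) j = 0 := by
    intro j
    by_cases hj : j = 3
    · subst hj
      have h1 : ∀ v ∈ D, u v * L (K.mkQ v) 3 * L (K.mkQ v) 3 = u v := by
        intro v hv
        obtain ⟨hvX, -⟩ := hDX v hv
        rcases R4_pm (hL3 _ (himg v hvX) 3) (hodd3 v hv) with h | h <;> rw [h] <;> ring
      rw [Finset.sum_congr rfl h1]
      have h3D : s 3 ∈ D := by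
        rw [hD]
        unfold out
        rw [Finset.mem_filter]
        exact ⟨hsX, hs3⟩
      have h2 := hB.1 (s 3) (by rw [← hD]; exact h3D)
      rw [← hD] at h2
      unfold cs at h2
      rw [Finset.filter_true_of_mem] at h2
      · exact h2
      · intro w hw
        obtain ⟨hwX, hwO⟩ := hDX w hw
        have h3 : sp X = sp O ⊔ span (ZMod 2) {s 3} :=
          eq_sup (sp O) (sp X) hOX hH.hyp (subset_span (Finset.mem_coe.2 hsX)) hs3
        have h4 : w ∈ sp O ⊔ span (ZMod 2) {s 3} := by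
          rw [← h3]
          exact subset_span (Finset.mem_coe.2 hwX)
        rcases mem_sup_one _ _ _ h4 with h5 | h5
        · exact absurd h5 hwO
        · exact h5
    · obtain ⟨k, l, hjk, hjl, hkl, hk3, hl3⟩ := R4_ex j hj
      obtain ⟨σ, hσ⟩ := hsig j hj
      have hc := hcl j k l hjk hjl hkl hj hk3 hl3
      have h1 : ∀ v ∈ D, u v * L (K.mkQ v) 3 * L (K.mkQ v) j =
          if v + (s 3 + s j) ∈ sp A ⊔ span (ZMod 2) {s k} ⊔ span (ZMod 2) {s l} then
            u v * σ else 0 := by
        intro v hv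
        obtain ⟨hvX, -⟩ := hDX v hv
        split_ifs with h
        · rw [mul_assoc, hσ v hv ((hc v hv).2 h)]
        · rw [R4_ze (hL3 _ (himg v hvX) j) (fun h2 => h ((hc v hv).1 h2)), mul_zero]
      rw [Finset.sum_congr rfl h1, ← Finset.sum_filter, ← Finset.sum_mul]
      -- independence
      have hk : s k ∉ sp A := by
        intro h
        have h2 := hsi (Pi.single k 1) (by
          simp only [Pi.single_apply, ite_smul, one_smul, zero_smul, Finset.sum_ite_eq',
            Finset.mem_univ, if_true]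
          exact h)
        have h3 := congrFun h2 k
        rw [Pi.single_eq_same, Pi.zero_apply] at h3
        exact one_ne_zero h3
      have hl : s l ∉ sp A ⊔ span (ZMod 2) {s k} := by
        intro h
        rcases mem_sup_one _ _ _ h with h2 | h2
        · have h3 := hsi (Pi.single l 1) (by
            simp only [Pi.single_apply, ite_smul, one_smul, zero_smul, Finset.sum_ite_eq',
              Finset.mem_univ, if_true]
            exact h2)
          have h4 := congrFun h3 l
          rw [Pi.single_eq_same, Pi.zero_apply] at h4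
          exact one_ne_zero h4
        · have h3 := hsi (Pi.single l 1 + Pi.single k 1) (by
            simp only [Pi.add_apply, add_smul, Finset.sum_add_distrib]
            simp only [Pi.single_apply, ite_smul, one_smul, zero_smul, Finset.sum_ite_eq',
              Finset.mem_univ, if_true]
            exact h2)
          have h4 := congrFun h3 l
          rw [Pi.add_apply, Pi.single_eq_same, Pi.single_eq_of_ne hkl.symm, add_zero,
            Pi.zero_apply] at h4
          exact one_ne_zero h4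
      have hfk : FiniteDimensional (ZMod 2) (sp A ⊔ span (ZMod 2) {s k} :
        Submodule (ZMod 2) V) := inferInstance
      have e1 := finrank_sup_one (sp A) (s k) hk
      have e2 := finrank_sup_one (sp A ⊔ span (ZMod 2) {s k}) (s l) hl
      have hG : sp (insert (s l) (insert (s k) A)) =
          sp A ⊔ span (ZMod 2) {s k} ⊔ span (ZMod 2) {s l} := by
        rw [sp_insert, sp_insert]
      have hins : insert (s l) (insert (s k) A) ⊆ O :=
        Finset.insert_subset (hsO l hl3) (Finset.insert_subset (hsO k hk3) hA)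
      have h5 := hB.2 _ hins (by
        show finrank (ZMod 2) (sp (insert (s l) (insert (s k) A))) + 2 = _
        rw [hG, e2, e1]
        omega) (s 3 + s j) (add_mem (subset_span (Finset.mem_coe.2 hsX))
          (subset_span (Finset.mem_coe.2 (hsX' j)))) (fun h => hs3 (by
            have h6 := sub_mem h (subset_span (Finset.mem_coe.2 (hsO j hj)) : s j ∈ sp O)
            rwa [add_sub_cancel_right] at h6))
      rw [hG, ← hD] at h5
      unfold cs at h5
      have h6 : ∑ v ∈ D.filter (fun v => v + (s 3 + s j) ∈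
          sp A ⊔ span (ZMod 2) {s k} ⊔ span (ZMod 2) {s l}), u v = 0 := by
        rw [← h5]
      rw [h6, zero_mul]
  -- Cauchy and Binet
  have hkey : ∀ x : Fin 4 → V, Function.Injective x → (∀ i, x i ∈ D) →
      (if sp A ⊔ sp (Finset.univ.image x) = sp X then (1 : ℤ) else 0) =
        Matrix.det (fun i j => L (K.mkQ (x i)) j) ^ 2 := by
    intro x _ hx
    obtain ⟨M, hM⟩ : ∃ M : Matrix (Fin 4) (Fin 4) ℤ, M = Matrix.of fun i j =>
      L (K.mkQ (x i)) j := ⟨_, rfl⟩
    have hM' : (fun i j => L (K.mkQ (x i)) j : Matrix (Fin 4) (Fin 4) ℤ) = M := by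
      rw [hM]
      rfl
    have h6 := hL4 (fun i => K.mkQ (x i)) (fun i => himg _ (hDX _ (hx i)).1)
    rw [← hM] at h6
    have hpar := R4_par t (fun i => K.mkQ (x i)) (M.map fun a => ((a : ℤ) : ZMod 2)) hli
      (fun i => by
        conv_lhs => rw [hL2 _ (himg _ (hDX _ (hx i)).1)]
        rw [hM]
        rfl)
    have hdet : (M.map fun a => ((a : ℤ) : ZMod 2)).det = ((M.det : ℤ) : ZMod 2) :=
      (Int.cast_det M).symm
    rw [hdet] at hpar
    have hsx : sp A ⊔ sp (Finset.univ.image x) = sp X ↔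
        span (ZMod 2) (Set.range fun i => K.mkQ (x i)) = span (ZMod 2) (Set.range t) := by
      have h1 : span (ZMod 2) (Set.range fun i => K.mkQ (x i)) =
          map K.mkQ (sp A ⊔ sp (Finset.univ.image x)) := by
        have h2 : map K.mkQ (sp A) = ⊥ := by
          refine LinearMap.le_ker_iff_map.1 ?_
          rw [Submodule.ker_mkQ, hK]
        rw [Submodule.map_sup, h2, bot_sup_eq, Submodule.map_span, Finset.coe_image,
          Finset.coe_univ, Set.image_univ, ← Set.range_comp]
        rfl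
      rw [h1, hspX]
      constructor
      · intro h
        rw [h]
      · intro h
        have h3 := congrArg (comap K.mkQ) h
        rw [Submodule.comap_map_mkQ, Submodule.comap_map_mkQ, hK, ← sup_assoc, sup_idem,
          sup_eq_right.2 hAX] at h3
        exact h3
    rw [hM']
    obtain ⟨d, hd⟩ : ∃ d, d = M.det := ⟨_, rfl⟩
    rw [← hd] at hpar h6 ⊢
    rcases h6 with rfl | rfl | rfl
    · rw [if_neg fun h => hpar.1 (hsx.1 h) (by decide)]
      norm_num
    · rw [if_pos (hsx.2 (hpar.2 (by decide)))]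
      norm_num
    · rw [if_pos (hsx.2 (hpar.2 (by decide)))]
      norm_num
  have h7 := hCB V 4 D (fun v => L (K.mkQ v)) u
    (fun W => if sp A ⊔ sp W = sp X then (1 : ℤ) else 0) hkey
  have h8 : tau D (sp A) (sp X) u 4 = ∑ W ∈ D.powersetCard 4, (∏ v ∈ W, u v) *
      (if sp A ⊔ sp W = sp X then (1 : ℤ) else 0) := by
    unfold tau
    refine Finset.sum_congr rfl fun W _ => ?_
    split_ifs <;> simp
  rw [← hD, h8, h7]
  exact Matrix.det_eq_zero_of_row_eq_zero 3 hrow

end Main

theorem thm_R4 (hCB : St_CB) : St_R4 := by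
  intro V _ _ _ X O u hH hB A hA hr
  exact R4_main hCB X O u hH hB A hA hr

end Pool.Agent.OCY
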