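import Pool.Agent.OCY.LIM
import Pool.Agent.OCY.COHm
import Pool.Agent.OCY.R
import Pool.Agent.OCY.BAL
import Pool.Agent.OCY.CB
import Pool.Agent.OCY.R4
import Pool.Agent.OCY.FIN
import Pool.Agent.OCY.Block

/-!
# OCY: the theorem (helper19)
-/

set_option autoImplicit false

namespace Pool.Agent.OCY

/-- **The main theorem** -/
theorem main : St_MAIN :=
  thm_MAIN thm_LIM thm_ORD thm_COH' thm_R1 thm_R2 thm_R3 (thm_R4 thm_CB) thm_BAL thm_FIN

end Pool.Agent.OCY
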