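import Pool.Agent.OCY.St
import Pool.Agent.TRJ.Weighted

/-!
# OCY: module COH
-/

set_option autoImplicit false

open Submodule Module

namespace Pool.Agent.OCY

open Pool.Agent.SPT.Odd

/-- the sum of `(-2) ^ card` over the subsets of `O` with a fixed span has the sign of the rank -/
private theorem COH_pos {V : Type} [AddCommGroup V] [Module (ZMod 2) V] [DecidableEq V]
    (O : Finset V) (h0 : (0 : V) ∉ O) (A : Finset V) (hA : A ⊆ O) (c : ℝ)
    (hc : c = ∑ B ∈ O.powerset.filter (fun B => @decide (sp B = sp A) (Classical.propDecidable _) = true),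
      (-2 : ℝ) ^ B.card) :
    0 < (-1 : ℝ) ^ rk (sp A) * c := by
  classical
  set X : Finset V := O.filter (fun v => v ∈ sp A) with hX
  have hXA : sp X = sp A := by
    refine le_antisymm (span_le.2 ?_) (span_mono ?_)
    · intro v hv
      exact (Finset.mem_filter.1 (Finset.mem_coe.1 hv)).2
    · intro v hv
      exact Finset.mem_coe.2 (Finset.mem_filter.2 ⟨hA (Finset.mem_coe.1 hv), subset_span hv⟩)
  have hX0 : (0 : V) ∉ X := fun h => h0 (Finset.mem_filter.1 h).1
  have h1 := Pool.Agent.TRJ.pos_box' X hX0 (fun _ => -1)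
    (fun v _ => ⟨le_refl _, by norm_num⟩)
  have h2 : RR X ⊥ (span (ZMod 2) (X : Set V)) (fun _ => -1) = c := by
    unfold RR
    rw [hc, ← Finset.sum_filter]
    refine Finset.sum_congr ?_ ?_
    · ext W
      simp only [Finset.mem_filter, Finset.mem_powerset, bot_sup_eq, decide_eq_true_eq]
      constructor
      · rintro ⟨hW, hW2⟩
        exact ⟨hW.trans (Finset.filter_subset _ _), hW2.trans hXA⟩
      · rintro ⟨hW, hW2⟩
        refine ⟨fun v hv => Finset.mem_filter.2 ⟨hW hv, ?_⟩, hW2.trans hXA.symm⟩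
        rw [← hW2]
        exact subset_span (Finset.mem_coe.2 hv)
    · intro W _
      rw [Finset.prod_const]
      norm_num
  rw [h2] at h1
  have h3 : finrank (ZMod 2) (span (ZMod 2) (X : Set V)) = rk (sp A) := by
    show finrank (ZMod 2) (sp X) = finrank (ZMod 2) (sp A)
    rw [hXA]
  rw [h3] at h1
  exact h1

/-- **Module COH** -/
theorem thm_COH : St_COH := by
  classical
  intro V _ _ _ O h0 ρ d ε hε hd hpos hsum
  set c : Submodule (ZMod 2) V → ℝ := fun K =>
    ∑ B ∈ O.powerset.filter (fun B => @decide (sp B = K) (Classical.propDecidable _) = true),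
      (-2 : ℝ) ^ B.card with hc
  have hcpos : ∀ A ⊆ O, 0 < (-1 : ℝ) ^ rk (sp A) * c (sp A) := fun A hA =>
    COH_pos O h0 A hA (c (sp A)) rfl
  have hgroup : ∑ A ∈ O.powerset, (-2 : ℝ) ^ A.card * ρ (sp A) =
      ∑ K ∈ O.powerset.image (fun A => sp A), c K * ρ K := by
    rw [← Finset.sum_fiberwise_of_maps_to (s := O.powerset)
      (t := O.powerset.image (fun A => sp A)) (g := fun A => sp A)
      (fun A hA => Finset.mem_image_of_mem _ hA)]
    refine Finset.sum_congr rfl fun K _ => ?_
    rw [hc]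
    simp only
    rw [Finset.sum_mul]
    refine Finset.sum_congr ?_ ?_
    · ext A
      simp only [Finset.mem_filter, decide_eq_true_eq]
    · intro A hA
      have h1 := (Finset.mem_filter.1 hA).2
      rw [decide_eq_true_eq] at h1
      rw [h1]
  rw [hgroup] at hsum
  have hnn : ∀ K ∈ O.powerset.image (fun A => sp A), 0 ≤ (-1 : ℝ) ^ d * ε * (c K * ρ K) := by
    intro K hK
    obtain ⟨A, hA, rfl⟩ := Finset.mem_image.1 hK
    have hAO := Finset.mem_powerset.1 hA
    by_cases h : rk (sp A) = d
    · have h1 := hcpos A hAO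
      have h2 := hpos A hAO
      rw [h] at h1
      have h3 := mul_nonneg h1.le h2
      calc (0 : ℝ) ≤ _ := h3
        _ = _ := by ring
    · rw [hd A hAO h, mul_zero, mul_zero]
  have hzero : ∑ K ∈ O.powerset.image (fun A => sp A), (-1 : ℝ) ^ d * ε * (c K * ρ K) = 0 := by
    rw [← Finset.mul_sum, hsum, mul_zero]
  have hall := (Finset.sum_eq_zero_iff_of_nonneg hnn).1 hzero
  intro A hA
  have h1 := hall (sp A) (Finset.mem_image_of_mem _ (Finset.mem_powerset.2 hA))
  have hε0 : ε ≠ 0 := by
    rcases hε with h | h <;> rw [h] <;> norm_num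
  have hd0 : (-1 : ℝ) ^ d ≠ 0 := pow_ne_zero _ (by norm_num)
  have hc0 : c (sp A) ≠ 0 := by
    intro h
    have h2 := hcpos A hA
    rw [h, mul_zero] at h2
    exact lt_irrefl _ h2
  rcases mul_eq_zero.1 h1 with h2 | h2
  · exact absurd h2 (mul_ne_zero hd0 hε0)
  · rcases mul_eq_zero.1 h2 with h3 | h3
    · exact absurd h3 hc0
    · exact h3

end Pool.Agent.OCY
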