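import Pool.Agent.OCY.St

/-!
# OCY LIM : the lowest order of the sum over spanning subsets
-/

set_option autoImplicit false

open Submodule Module Filter Topology
open Pool.Agent.SPT.Odd

namespace Pool.Agent.OCY

/-- one factor -/
private theorem LIM_fac (k : ℤ) :
    Tendsto (fun x : ℝ => (Real.exp (x * (k : ℝ)) - 1) / x) (𝓝[>] 0) (𝓝 (k : ℝ)) := by
  have h : HasDerivAt (fun x : ℝ => Real.exp (x * (k : ℝ))) (k : ℝ) 0 := by
    have := ((hasDerivAt_id (0 : ℝ)).mul_const (k : ℝ)).exp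
    simpa using this
  have h2 := h.tendsto_slope_zero_right
  refine h2.congr (fun x => ?_)
  rw [zero_add, zero_mul, Real.exp_zero, smul_eq_mul, div_eq_inv_mul]

/-- a product -/
private theorem LIM_prod {V : Type} [AddCommGroup V] [Module (ZMod 2) V] (u : V → ℤ)
    (W : Finset V) (c : ℕ) (hc : c ≤ W.card) :
    Tendsto (fun x : ℝ => (∏ v ∈ W, (ex u x v - 1)) / x ^ c) (𝓝[>] 0)
      (𝓝 (if W.card = c then ∏ v ∈ W, (u v : ℝ) else 0)) := by
  have h1 : Tendsto (fun x : ℝ => ∏ v ∈ W, ((ex u x v - 1) / x)) (𝓝[>] 0)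
      (𝓝 (∏ v ∈ W, (u v : ℝ))) := tendsto_finsetProd _ (fun v _ => LIM_fac (u v))
  have h2 : Tendsto (fun x : ℝ => x) (𝓝[>] 0) (𝓝 0) :=
    (continuous_id.tendsto (0 : ℝ)).mono_left nhdsWithin_le_nhds
  have h3 := h1.mul (h2.pow (W.card - c))
  have h4 : (∏ v ∈ W, (u v : ℝ)) * (0 : ℝ) ^ (W.card - c) =
      if W.card = c then ∏ v ∈ W, (u v : ℝ) else 0 := by
    split_ifs with h
    · rw [h, Nat.sub_self, pow_zero, mul_one]
    · rw [zero_pow (by omega), mul_zero]
  rw [h4] at h3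
  refine h3.congr' ?_
  filter_upwards [self_mem_nhdsWithin] with x hx
  have hx0 : x ≠ 0 := ne_of_gt hx
  rw [Finset.prod_div_distrib, Finset.prod_const]
  have h5 : x ^ W.card = x ^ c * x ^ (W.card - c) := by
    rw [← pow_add]
    congr 1
    omega
  rw [h5]
  have h6 : x ^ (W.card - c) ≠ 0 := pow_ne_zero _ hx0
  have h7 : x ^ c ≠ 0 := pow_ne_zero _ hx0
  field_simp

/-- a set which spans `T` together with `K` has at least `c` elements -/
private theorem LIM_card {V : Type} [AddCommGroup V] [Module (ZMod 2) V]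
    (K T : Submodule (ZMod 2) V) (hK : FiniteDimensional (ZMod 2) K) (c : ℕ)
    (hc : rk K + c = rk T) (W : Finset V) (hW : K ⊔ sp W = T) : c ≤ W.card := by
  have h2 : rk (K ⊔ sp W : Submodule (ZMod 2) V) ≤ rk K + rk (sp W) :=
    Submodule.finrank_add_le_finrank_add_finrank K (sp W)
  have h3 : rk (sp W) ≤ W.card := finrank_span_finset_le_card W
  rw [hW] at h2
  omega

/-- [LIM] -/
theorem thm_LIM : St_LIM := by
  classical
  intro V _ _ _ B K T u c _ hK hc
  have main : Tendsto (fun x : ℝ => RR B K T (ex u x) / x ^ c) (𝓝[>] 0)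
      (𝓝 ((tau B K T u c : ℤ) : ℝ)) := by
    have h1 : ∀ W ∈ B.powerset, Tendsto (fun x : ℝ =>
        (if K ⊔ sp W = T then ∏ v ∈ W, (ex u x v - 1) else 0) / x ^ c) (𝓝[>] 0)
        (𝓝 (if W.card = c then (if K ⊔ sp W = T then ∏ v ∈ W, (u v : ℝ) else 0) else 0)) := by
      intro W _
      by_cases hW : K ⊔ sp W = T
      · simp only [if_pos hW]
        exact LIM_prod u W c (LIM_card K T hK c hc W hW)
      · simp only [if_neg hW, zero_div, ite_self]
        exact tendsto_const_nhds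
    have h2 := tendsto_finsetSum _ h1
    have h3 : (∑ W ∈ B.powerset, (if W.card = c then (if K ⊔ sp W = T then ∏ v ∈ W, (u v : ℝ)
        else 0) else 0)) = ((tau B K T u c : ℤ) : ℝ) := by
      unfold tau
      rw [Finset.powersetCard_eq_filter, Finset.sum_filter]
      push_cast
      refine Finset.sum_congr rfl (fun W _ => ?_)
      split_ifs <;> rfl
    rw [h3] at h2
    refine h2.congr (fun x => ?_)
    unfold RR
    rw [Finset.sum_div]
  refine ⟨main, fun n hn => ?_⟩
  have h2 : Tendsto (fun x : ℝ => x ^ (c - n)) (𝓝[>] 0) (𝓝 0) := by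
    have h4 := ((continuous_id.tendsto (0 : ℝ)).mono_left
      (nhdsWithin_le_nhds (s := Set.Ioi 0))).pow (c - n)
    rwa [id, zero_pow (by omega)] at h4
  have h3 := main.mul h2
  rw [mul_zero] at h3
  refine h3.congr' ?_
  filter_upwards [self_mem_nhdsWithin] with x hx
  have hx0 : x ≠ 0 := ne_of_gt hx
  have h5 : x ^ c = x ^ n * x ^ (c - n) := by
    rw [← pow_add]
    congr 1
    omega
  rw [h5]
  have h6 : x ^ (c - n) ≠ 0 := pow_ne_zero _ hx0
  have h7 : x ^ n ≠ 0 := pow_ne_zero _ hx0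
  field_simp

end Pool.Agent.OCY
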