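import Pool.Agent.OCY.Tools

/-!
# OCY, module MAIN: the orders one, two and four (helper19)
-/

set_option autoImplicit false
set_option linter.unusedSectionVars false

open Submodule Module Filter Topology

namespace Pool.Agent.OCY

open Pool.Agent.SPT.Odd Pool.Agent.TRL

variable {V : Type} [AddCommGroup V] [Module (ZMod 2) V] [DecidableEq V]

section

variable {X O : Finset V} {u : V → ℤ}

theorem sp_le {M : Submodule (ZMod 2) V} {A : Finset V} (hA : A ⊆ inn X M) : sp A ≤ M :=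
  span_le.2 fun _v hv => (mem_inn.1 (hA (Finset.mem_coe.1 hv))).2

theorem rk_mono {K M : Submodule (ZMod 2) V} [FiniteDimensional (ZMod 2) M] (h : K ≤ M) :
    rk K ≤ rk M := Submodule.finrank_mono h

theorem rk_sup (K : Submodule (ZMod 2) V) [FiniteDimensional (ZMod 2) K] (p : V) (hp : p ∉ K) :
    rk (K ⊔ span (ZMod 2) {p}) = rk K + 1 := finrank_sup_one K p hp

theorem Hyp.le (h : Hyp X O) : sp O ≤ sp X := span_mono (Finset.coe_subset.2 h.sub)

theorem Hyp.mem (_h : Hyp X O) {v : V} (hv : v ∈ out X (sp O)) : v ∈ sp X ∧ v ∉ sp O :=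
  ⟨subset_span (Finset.mem_coe.2 (mem_out.1 hv).1), (mem_out.1 hv).2⟩

theorem Hyp.exists_out (h : Hyp X O) : ∃ f, f ∈ out X (sp O) := by
  obtain ⟨p, hp, hpK⟩ := OCY.exists_out (sp O) (sp X) X rfl h.le (by have := h.hyp; omega)
  exact ⟨p, mem_out.2 ⟨hp, hpK⟩⟩

/-- the difference of two vectors outside of the hyperplane -/
theorem Hyp.add_mem (h : Hyp X O) {v w : V} (hv : v ∈ sp X) (hvO : v ∉ sp O) (hw : w ∈ sp X)
    (hwO : w ∉ sp O) : v + w ∈ sp O := by
  have h1 := eq_sup (sp O) (sp X) h.le h.hyp hw hwO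
  rw [h1] at hv
  rcases mem_sup_one _ _ _ hv with h2 | h2
  · exact absurd h2 hvO
  · exact h2

theorem Hyp.cs_all (h : Hyp X O) {v : V} (hv : v ∈ sp X) (hvO : v ∉ sp O) :
    cs (out X (sp O)) u (sp O) v = ∑ w ∈ out X (sp O), u w := by
  classical
  unfold cs
  rw [Finset.filter_true_of_mem fun w hw => h.add_mem (h.mem hw).1 (h.mem hw).2 hv hvO]

/-- corank one -/
theorem tend_one (hR1 : St_R1) (h : Hyp X O) {A : Finset V} (hA : A ⊆ inn X (sp O))
    (hr : rk (sp A) + 1 = rk (sp X)) (x : ℝ) :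
    RR (out X (sp O)) (sp A) (sp X) (ex u x) =
      Real.exp (x * ((∑ v ∈ out X (sp O), u v : ℤ) : ℝ)) - 1 := by
  have hle := sp_le hA
  rw [hR1 V _ _ _ _ inferInstance (hle.trans h.le) hr fun v hv =>
    ⟨(h.mem hv).1, fun hvA => (h.mem hv).2 (hle hvA)⟩, prod_ex]

theorem ord_one (hLIM : St_LIM) (hORD : St_ORD) (hCOH : St_COH) (hR1 : St_R1) (h : Hyp X O)
    (hvan : ∀ x : ℝ, 0 < x → RR X ⊥ (sp X) (sx O u x) = 0) : ∑ v ∈ out X (sp O), u v = 0 := by
  classical
  obtain ⟨s, hs⟩ : ∃ s : ℤ, s = ∑ v ∈ out X (sp O), u v := ⟨_, rfl⟩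
  obtain ⟨ρ, hρ⟩ : ∃ ρ : Submodule (ZMod 2) V → ℝ, ∀ K, ρ K =
    if rk K + 1 = rk (sp X) then (s : ℝ) else 0 := ⟨_, fun _ => rfl⟩
  have h1 := hORD V X O u h.sub hvan 1 ρ (by
    intro A hA
    rw [hρ]
    by_cases hr : rk (sp A) + 1 = rk (sp X)
    · rw [if_pos hr]
      refine (lim_exp (s : ℝ)).congr fun x => ?_
      rw [tend_one hR1 h hA hr, pow_one, ← hs]
    · rw [if_neg hr]
      have hle := rk_mono (sp_le hA)
      have hh := h.hyp
      refine (hLIM V (out X (sp O)) (sp A) (sp X) u (rk (sp X) - rk (sp A)) inferInstance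
        inferInstance (by omega)).2 1 (by omega))
  rw [← hs]
  by_contra hs0
  obtain ⟨ε, hε, hεs⟩ : ∃ ε : ℝ, (ε = 1 ∨ ε = -1) ∧ 0 ≤ ε * (s : ℝ) := by
    rcases le_total 0 (s : ℝ) with h2 | h2
    · exact ⟨1, Or.inl rfl, by rw [one_mul]; exact h2⟩
    · exact ⟨-1, Or.inr rfl, by rw [neg_one_mul]; exact neg_nonneg.2 h2⟩
  have h2 := hCOH V O (fun h0 => h.zero (h.sub h0)) ρ (rk (sp X) - 1) ε hε (fun A _ hr => by
    rw [hρ, if_neg (by omega)]) (fun A _ => by
    rw [hρ]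
    split_ifs
    · exact hεs
    · rw [mul_zero]) h1 O (Finset.Subset.refl O)
  rw [hρ, if_pos h.hyp] at h2
  exact hs0 (by exact_mod_cast h2)

/-- corank two -/
theorem tend_two (hR2 : St_R2) (h : Hyp X O) (hs : ∑ v ∈ out X (sp O), u v = 0) {A : Finset V}
    (hA : A ⊆ inn X (sp O)) (hr : rk (sp A) + 2 = rk (sp X)) {f : V} (hf : f ∈ sp X)
    (hfO : f ∉ sp O) (x : ℝ) :
    RR (out X (sp O)) (sp A) (sp X) (ex u x) =
      (Real.exp (x * ((cs (out X (sp O)) u (sp A) f : ℤ) : ℝ)) - 1) *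
        (Real.exp (x * ((-cs (out X (sp O)) u (sp A) f : ℤ) : ℝ)) - 1) ∧
    (∀ v ∈ sp X, v ∉ sp O → cs (out X (sp O)) u (sp A) v = cs (out X (sp O)) u (sp A) f ∨
      cs (out X (sp O)) u (sp A) v = -cs (out X (sp O)) u (sp A) f) := by
  classical
  have hle := sp_le hA
  have hh := h.hyp
  obtain ⟨p, hp, hpK⟩ := OCY.exists_out (sp A) (sp O) O rfl hle (by omega)
  have hpO : p ∈ sp O := subset_span (Finset.mem_coe.2 hp)
  have hM := eq_sup (sp A) (sp O) hle (by omega) hpO hpK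
  have hT := eq_sup (sp O) (sp X) h.le h.hyp hf hfO
  have h1 : cs (out X (sp O)) u (sp A) (f + p) = -cs (out X (sp O)) u (sp A) f := by
    have h2 := cs_sup (out X (sp O)) u (sp A) p f hpK
    rw [← hM, h.cs_all hf hfO, hs] at h2
    omega
  refine ⟨?_, fun v hv hvO => ?_⟩
  · rw [hR2 V _ (sp A) (sp O) (sp X) _ p f inferInstance hpK hM hfO hT fun v hv => h.mem hv,
      yy_ex, yy_ex, h1]
  · have h2 := h.add_mem hv hvO hf hfO
    rw [hM] at h2
    rcases mem_sup_one _ _ _ h2 with h3 | h3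
    · exact Or.inl (cs_congr _ _ _ h3)
    · right
      rw [← h1]
      refine cs_congr _ _ _ ?_
      rw [← add_assoc]
      exact h3

theorem ord_two (hLIM : St_LIM) (hORD : St_ORD) (hCOH : St_COH) (hR1 : St_R1) (hR2 : St_R2)
    (h : Hyp X O) (hvan : ∀ x : ℝ, 0 < x → RR X ⊥ (sp X) (sx O u x) = 0)
    (hs : ∑ v ∈ out X (sp O), u v = 0) : Bal X O O u := by
  classical
  obtain ⟨f, hf⟩ := h.exists_out
  obtain ⟨hfT, hfO⟩ := h.mem hf
  obtain ⟨ρ, hρ⟩ : ∃ ρ : Submodule (ZMod 2) V → ℝ, ∀ K, ρ K =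
    if rk K + 2 = rk (sp X) then -((cs (out X (sp O)) u K f : ℤ) : ℝ) ^ 2 else 0 :=
    ⟨_, fun _ => rfl⟩
  have h1 := hORD V X O u h.sub hvan 2 ρ (by
    intro A hA
    rw [hρ]
    have hle := rk_mono (sp_le hA)
    have hh := h.hyp
    by_cases hr1 : rk (sp A) + 1 = rk (sp X)
    · rw [if_neg (by omega)]
      refine tendsto_const_nhds.congr fun x => ?_
      rw [tend_one hR1 h hA hr1, hs, Int.cast_zero, mul_zero, Real.exp_zero, sub_self, zero_div]
    · by_cases hr : rk (sp A) + 2 = rk (sp X)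
      · rw [if_pos hr]
        obtain ⟨a, ha⟩ : ∃ a : ℤ, a = cs (out X (sp O)) u (sp A) f := ⟨_, rfl⟩
        have h2 := (lim_exp (a : ℝ)).mul (lim_exp ((-a : ℤ) : ℝ))
        have h3 : (a : ℝ) * ((-a : ℤ) : ℝ) = -(a : ℝ) ^ 2 := by
          push_cast
          ring
        rw [h3] at h2
        rw [← ha]
        refine h2.congr fun x => ?_
        rw [(tend_two hR2 h hs hA hr hfT hfO x).1, ← ha, pow_two, mul_div_mul_comm]
      · rw [if_neg hr]
        refine (hLIM V (out X (sp O)) (sp A) (sp X) u (rk (sp X) - rk (sp A)) inferInstance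
          inferInstance (by omega)).2 2 (by omega))
  have h2 := hCOH V O (fun h0 => h.zero (h.sub h0)) ρ (rk (sp X) - 2) (-1) (Or.inr rfl)
    (fun A hA hr => by
      have hle := rk_mono (sp_le ((hA.trans (sub_inn h.sub))))
      have hh := h.hyp
      rw [hρ, if_neg (by omega)])
    (fun A _ => by
      rw [hρ]
      split_ifs
      · rw [neg_one_mul, neg_neg]
        exact sq_nonneg _
      · rw [mul_zero]) h1
  refine ⟨fun v hv => ?_, fun A hA hr v hv hvO => ?_⟩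
  · rw [h.cs_all (h.mem hv).1 (h.mem hv).2, hs]
  · have h3 := h2 A hA
    rw [hρ, if_pos hr, neg_eq_zero] at h3
    have h4 : cs (out X (sp O)) u (sp A) f = 0 := by
      have h5 := pow_eq_zero_iff (two_ne_zero) |>.1 h3
      exact_mod_cast h5
    rcases (tend_two hR2 h hs (hA.trans (sub_inn h.sub)) hr hfT hfO 0).2 v hv hvO with h5 | h5
    · rw [h5, h4]
    · rw [h5, h4, neg_zero]

/-- corank three -/
theorem tend_three (hR3 : St_R3) (h : Hyp X O) (hb : Bal X O (inn X (sp O)) u) {A : Finset V}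
    (hA : A ⊆ inn X (sp O)) (hr : rk (sp A) + 3 = rk (sp X)) {f : V} (hf : f ∈ sp X)
    (hfO : f ∉ sp O) (x : ℝ) :
    RR (out X (sp O)) (sp A) (sp X) (ex u x) =
      -((Real.exp (x * ((cs (out X (sp O)) u (sp A) f : ℤ) : ℝ)) - 1) ^ 2 *
        (Real.exp (x * ((-cs (out X (sp O)) u (sp A) f : ℤ) : ℝ)) - 1) ^ 2) ∧
    (∀ v ∈ sp X, v ∉ sp O → cs (out X (sp O)) u (sp A) v = cs (out X (sp O)) u (sp A) f ∨
      cs (out X (sp O)) u (sp A) v = -cs (out X (sp O)) u (sp A) f) := by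
  classical
  have hle := sp_le hA
  have hh := h.hyp
  obtain ⟨p, hp, hpK⟩ := OCY.exists_out (sp A) (sp O) O rfl hle (by omega)
  have hpO : p ∈ sp O := subset_span (Finset.mem_coe.2 hp)
  have hrp := rk_sup (sp A) p hpK
  have hle2 : sp A ⊔ span (ZMod 2) {p} ≤ sp O :=
    sup_le hle ((span_singleton_le_iff_mem _ _).2 hpO)
  obtain ⟨q, hq, hqK⟩ := OCY.exists_out (sp A ⊔ span (ZMod 2) {p}) (sp O) O rfl hle2
    (by rw [hrp]; omega)
  have hqO : q ∈ sp O := subset_span (Finset.mem_coe.2 hq)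
  have hqA : q ∉ sp A := fun h1 => hqK (mem_sup_left h1)
  have hrq := rk_sup (sp A) q hqA
  have hM := eq_sup (sp A ⊔ span (ZMod 2) {p}) (sp O) hle2
    (by rw [hrp]; omega) hqO hqK
  have hT := eq_sup (sp O) (sp X) h.le h.hyp hf hfO
  have hpX : p ∈ inn X (sp O) := sub_inn h.sub hp
  have hqX : q ∈ inn X (sp O) := sub_inn h.sub hq
  have hfp : f + p ∈ sp X ∧ f + p ∉ sp O := ⟨add_mem hf (h.le hpO), fun h1 => hfO
    ((Submodule.add_mem_iff_left _ hpO).1 h1)⟩
  have hfq : f + q ∈ sp X ∧ f + q ∉ sp O := ⟨add_mem hf (h.le hqO), fun h1 => hfO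
    ((Submodule.add_mem_iff_left _ hqO).1 h1)⟩
  have h1 : cs (out X (sp O)) u (sp A) (f + p) = -cs (out X (sp O)) u (sp A) f := by
    have h2 := cs_sup (out X (sp O)) u (sp A) p f hpK
    rw [← sp_insert, hb.2 (insert p A) (Finset.insert_subset hpX hA)
      (by rw [sp_insert, hrp]; omega) f hf hfO]
      at h2
    omega
  have h2 : cs (out X (sp O)) u (sp A) (f + q) = -cs (out X (sp O)) u (sp A) f := by
    have h2 := cs_sup (out X (sp O)) u (sp A) q f hqA
    rw [← sp_insert, hb.2 (insert q A) (Finset.insert_subset hqX hA)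
      (by rw [sp_insert, hrq]; omega) f hf hfO]
      at h2
    omega
  have h3 : cs (out X (sp O)) u (sp A) (f + p + q) = cs (out X (sp O)) u (sp A) f := by
    have h4 := cs_sup (out X (sp O)) u (sp A) q (f + p) hqA
    rw [← sp_insert, hb.2 (insert q A) (Finset.insert_subset hqX hA)
      (by rw [sp_insert, hrq]; omega) (f + p)
      hfp.1 hfp.2] at h4
    omega
  refine ⟨?_, fun v hv hvO => ?_⟩
  · rw [hR3 V _ (sp A) (sp O) (sp X) _ p q f inferInstance hpK hqK hM hfO hT fun v hv => h.mem hv,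
      yy_ex, yy_ex, yy_ex, yy_ex, h1, h2, h3]
    obtain ⟨t, ht⟩ : ∃ t : ℝ, t = Real.exp (x * ((cs (out X (sp O)) u (sp A) f : ℤ) : ℝ)) :=
      ⟨_, rfl⟩
    have ht0 : t ≠ 0 := by
      rw [ht]
      exact (Real.exp_pos _).ne'
    have ht' : Real.exp (x * ((-cs (out X (sp O)) u (sp A) f : ℤ) : ℝ)) = t⁻¹ := by
      rw [ht, ← Real.exp_neg]
      congr 1
      push_cast
      ring
    rw [ht', ← ht]
    field_simp
    ring
  · have h4 := h.add_mem hv hvO hf hfO
    rw [hM] at h4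
    rcases mem_sup_one _ _ _ h4 with h5 | h5
    · rcases mem_sup_one _ _ _ h5 with h6 | h6
      · exact Or.inl (cs_congr _ _ _ h6)
      · right
        rw [← h1]
        refine cs_congr _ _ _ ?_
        rw [← add_assoc]
        exact h6
    · rcases mem_sup_one _ _ _ h5 with h6 | h6
      · right
        rw [← h2]
        refine cs_congr _ _ _ ?_
        rw [← add_assoc]
        exact h6
      · left
        rw [← h3]
        refine cs_congr _ _ _ ?_
        have h7 : v + (f + p + q) = v + f + q + p := by abel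
        rw [h7]
        exact h6

theorem ord_four (hLIM : St_LIM) (hORD : St_ORD) (hCOH : St_COH) (hR1 : St_R1) (hR2 : St_R2)
    (hR3 : St_R3) (hR4 : St_R4) (h : Hyp X O)
    (hvan : ∀ x : ℝ, 0 < x → RR X ⊥ (sp X) (sx O u x) = 0)
    (hs : ∑ v ∈ out X (sp O), u v = 0) (hbO : Bal X O O u) (hb : Bal X O (inn X (sp O)) u) :
    ∀ A ⊆ O, rk (sp A) + 3 = rk (sp X) → ∀ v ∈ sp X, v ∉ sp O →
      cs (out X (sp O)) u (sp A) v = 0 := by
  classical
  obtain ⟨f, hf⟩ := h.exists_out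
  obtain ⟨hfT, hfO⟩ := h.mem hf
  obtain ⟨ρ, hρ⟩ : ∃ ρ : Submodule (ZMod 2) V → ℝ, ∀ K, ρ K =
    if rk K + 3 = rk (sp X) then -((cs (out X (sp O)) u K f : ℤ) : ℝ) ^ 4 else
      if rk K + 4 = rk (sp X) then ((tau (out X (sp O)) K (sp X) u 4 : ℤ) : ℝ) else 0 :=
    ⟨_, fun _ => rfl⟩
  have h1 := hORD V X O u h.sub hvan 4 ρ (by
    intro A hA
    rw [hρ]
    have hle := rk_mono (sp_le hA)
    have hh := h.hyp
    by_cases hr1 : rk (sp A) + 1 = rk (sp X)
    · rw [if_neg (by omega), if_neg (by omega)]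
      refine tendsto_const_nhds.congr fun x => ?_
      rw [tend_one hR1 h hA hr1, hs, Int.cast_zero, mul_zero, Real.exp_zero, sub_self, zero_div]
    by_cases hr2 : rk (sp A) + 2 = rk (sp X)
    · rw [if_neg (by omega), if_neg (by omega)]
      refine tendsto_const_nhds.congr fun x => ?_
      rw [(tend_two hR2 h hs hA hr2 hfT hfO x).1, hb.2 A hA hr2 f hfT hfO, Int.cast_zero,
        mul_zero, Real.exp_zero, sub_self, zero_mul, zero_div]
    by_cases hr : rk (sp A) + 3 = rk (sp X)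
    · rw [if_pos hr]
      obtain ⟨a, ha⟩ : ∃ a : ℤ, a = cs (out X (sp O)) u (sp A) f := ⟨_, rfl⟩
      have h2 := (((lim_exp (a : ℝ)).pow 2).mul ((lim_exp ((-a : ℤ) : ℝ)).pow 2)).neg
      have h3 : -((a : ℝ) ^ 2 * ((-a : ℤ) : ℝ) ^ 2) = -(a : ℝ) ^ 4 := by
        push_cast
        ring
      rw [h3] at h2
      rw [← ha]
      refine h2.congr fun x => ?_
      rw [(tend_three hR3 h hb hA hr hfT hfO x).1, ← ha, div_pow, div_pow, neg_div,
        show (4 : ℕ) = 2 + 2 from rfl, pow_add, mul_div_mul_comm]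
    rw [if_neg hr]
    by_cases hr4 : rk (sp A) + 4 = rk (sp X)
    · rw [if_pos hr4]
      exact (hLIM V (out X (sp O)) (sp A) (sp X) u 4 inferInstance inferInstance hr4).1
    · rw [if_neg hr4]
      refine (hLIM V (out X (sp O)) (sp A) (sp X) u (rk (sp X) - rk (sp A)) inferInstance
        inferInstance (by omega)).2 4 (by omega))
  have h2 := hCOH V O (fun h0 => h.zero (h.sub h0)) ρ (rk (sp X) - 3) (-1) (Or.inr rfl)
    (fun A hA hr => by
      have hle := rk_mono (sp_le ((hA.trans (sub_inn h.sub))))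
      have hh := h.hyp
      rw [hρ, if_neg (by omega)]
      split_ifs with h4
      · rw [hR4 V X O u h hbO A hA h4, Int.cast_zero]
      · rfl)
    (fun A hA => by
      rw [hρ]
      split_ifs with h3 h4
      · rw [neg_one_mul, neg_neg]
        positivity
      · rw [hR4 V X O u h hbO A hA h4, Int.cast_zero, mul_zero]
      · rw [mul_zero]) h1
  intro A hA hr v hv hvO
  have h3 := h2 A hA
  rw [hρ, if_pos hr, neg_eq_zero] at h3
  have h4 : cs (out X (sp O)) u (sp A) f = 0 := by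
    have h5 := pow_eq_zero_iff (four_ne_zero) |>.1 h3
    exact_mod_cast h5
  rcases (tend_three hR3 h hb (hA.trans (sub_inn h.sub)) hr hfT hfO 0).2 v hv hvO with h5 | h5
  · rw [h5, h4]
  · rw [h5, h4, neg_zero]

end

/-- **The main theorem** -/
theorem thm_MAIN (hLIM : St_LIM) (hORD : St_ORD) (hCOH : St_COH) (hR1 : St_R1) (hR2 : St_R2)
    (hR3 : St_R3) (hR4 : St_R4) (hBAL : St_BAL) (hFIN : St_FIN) : St_MAIN := by
  classical
  intro V _ _ _ X O u h hu
  by_contra hno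
  push Not at hno
  have hs := ord_one hLIM hORD hCOH hR1 h hno
  have hbO := ord_two hLIM hORD hCOH hR1 hR2 h hno hs
  have hb := hBAL V X O u h hbO
  have h3 := ord_four hLIM hORD hCOH hR1 hR2 hR3 hR4 h hno hs hbO hb
  obtain ⟨v, hv, hv0⟩ := hu
  refine hv0 (hFIN V X O u h ?_ v hv)
  intro m hm1 hm3 A hA hr w hw hwO
  have hm : m = 1 ∨ m = 2 ∨ m = 3 := by omega
  rcases hm with rfl | rfl | rfl
  · have h4 : sp A = sp O := by
      refine Submodule.eq_of_le_of_finrank_eq (span_mono (Finset.coe_subset.2 hA)) ?_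
      have h5 := h.hyp
      show rk (sp A) = rk (sp O)
      omega
    rw [h4, h.cs_all hw hwO, hs]
  · exact hbO.2 A hA hr w hw hwO
  · exact h3 A hA hr w hw hwO

end Pool.Agent.OCY
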