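import Pool.Agent.OCY.St

/-!
# OCY, module ORD: the coefficient of order `n` (helper19)
-/

set_option autoImplicit false
set_option linter.unusedSectionVars false

open Submodule Module Filter Topology

namespace Pool.Agent.OCY

open Pool.Agent.SPT.Odd Pool.Agent.TRL

variable {V : Type} [AddCommGroup V] [Module (ZMod 2) V] [DecidableEq V]

theorem mem_out {X : Finset V} {M : Submodule (ZMod 2) V} {v : V} :
    v ∈ out X M ↔ v ∈ X ∧ v ∉ M := by
  classical
  unfold out
  exact Finset.mem_filter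

theorem mem_inn {X : Finset V} {M : Submodule (ZMod 2) V} {v : V} :
    v ∈ inn X M ↔ v ∈ X ∧ v ∈ M := by
  classical
  unfold inn
  exact Finset.mem_filter

theorem sub_inn {X O : Finset V} (hO : O ⊆ X) : O ⊆ inn X (sp O) := fun v hv =>
  mem_inn.2 ⟨hO hv, subset_span (Finset.mem_coe.2 hv)⟩

theorem sdiff_inn (X : Finset V) (M : Submodule (ZMod 2) V) : X \ inn X M = out X M := by
  ext v
  rw [Finset.mem_sdiff, mem_inn, mem_out]
  tauto

/-- the polynomial as a double sum -/
theorem RR_split (X : Finset V) (M : Submodule (ZMod 2) V) (y : V → ℝ) :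
    RR X ⊥ (sp X) y = ∑ A ∈ (inn X M).powerset,
      (∏ v ∈ A, (y v - 1)) * RR (out X M) (sp A) (sp X) y := by
  classical
  have h0 : inn X M ⊆ X := fun v hv => (mem_inn.1 hv).1
  unfold RR
  rw [TRJ.sum_split X (inn X M) h0, sdiff_inn]
  refine Finset.sum_congr rfl fun A hA => ?_
  rw [Finset.mul_sum]
  refine Finset.sum_congr rfl fun B hB => ?_
  rw [Finset.mem_powerset] at hA hB
  have hdis : Disjoint A B := by
    rw [Finset.disjoint_left]
    intro v h1 h2
    exact (mem_out.1 (hB h2)).2 (mem_inn.1 (hA h1)).2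
  rw [Finset.prod_union hdis, Finset.coe_union, span_union, bot_sup_eq]
  by_cases h : span (ZMod 2) (A : Set V) ⊔ span (ZMod 2) (B : Set V) = sp X
  · rw [if_pos h, if_pos h]
  · rw [if_neg h, if_neg h, mul_zero]

theorem ex_tendsto (u : V → ℤ) (v : V) : Tendsto (fun x : ℝ => ex u x v) (𝓝[>] 0) (𝓝 1) := by
  have h1 : Continuous fun x : ℝ => ex u x v := by
    unfold ex
    exact Real.continuous_exp.comp (continuous_id.mul continuous_const)
  have h2 : ex u 0 v = 1 := by
    unfold ex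
    rw [zero_mul, Real.exp_zero]
  have h3 := h1.tendsto 0
  rw [h2] at h3
  exact h3.mono_left nhdsWithin_le_nhds

theorem sx_tendsto (O : Finset V) (u : V → ℤ) (A : Finset V) :
    Tendsto (fun x : ℝ => ∏ v ∈ A, (sx O u x v - 1)) (𝓝[>] 0)
      (𝓝 (if A ⊆ O then (-2 : ℝ) ^ A.card else 0)) := by
  classical
  have h1 : ∀ v ∈ A, Tendsto (fun x : ℝ => sx O u x v - 1) (𝓝[>] 0)
      (𝓝 ((if v ∈ O then -1 else 1) - 1)) := by
    intro v _
    have h2 := ((ex_tendsto u v).const_mul (if v ∈ O then (-1 : ℝ) else 1)).sub_const 1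
    rw [mul_one] at h2
    refine h2.congr fun x => ?_
    unfold sx
    split_ifs <;> rfl
  have h2 := tendsto_finsetProd A h1
  have h3 : ∏ v ∈ A, ((if v ∈ O then (-1 : ℝ) else 1) - 1) =
      if A ⊆ O then (-2 : ℝ) ^ A.card else 0 := by
    by_cases hA : A ⊆ O
    · rw [if_pos hA, ← Finset.prod_const]
      refine Finset.prod_congr rfl fun v hv => ?_
      rw [if_pos (hA hv)]
      norm_num
    · rw [if_neg hA]
      obtain ⟨v, hv, hvO⟩ := Finset.not_subset.1 hA
      refine Finset.prod_eq_zero hv ?_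
      rw [if_neg hvO, sub_self]
  rw [h3] at h2
  exact h2

theorem thm_ORD : St_ORD := by
  classical
  intro V _ _ _ X O u hO hvan n ρ hρ
  have h1 : Tendsto (fun x : ℝ => ∑ A ∈ (inn X (sp O)).powerset,
      (∏ v ∈ A, (sx O u x v - 1)) * (RR (out X (sp O)) (sp A) (sp X) (ex u x) / x ^ n)) (𝓝[>] 0)
      (𝓝 (∑ A ∈ (inn X (sp O)).powerset, (if A ⊆ O then (-2 : ℝ) ^ A.card else 0) *
        ρ (sp A))) :=
    tendsto_finsetSum _ fun A hA => (sx_tendsto O u A).mul (hρ A (Finset.mem_powerset.1 hA))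
  have h2 : (fun x : ℝ => ∑ A ∈ (inn X (sp O)).powerset,
      (∏ v ∈ A, (sx O u x v - 1)) * (RR (out X (sp O)) (sp A) (sp X) (ex u x) / x ^ n))
      =ᶠ[𝓝[>] 0] fun _ => 0 := by
    filter_upwards [self_mem_nhdsWithin] with x hx
    have h3 := hvan x hx
    rw [RR_split X (sp O)] at h3
    have h4 : ∀ A ∈ (inn X (sp O)).powerset, (∏ v ∈ A, (sx O u x v - 1)) *
        (RR (out X (sp O)) (sp A) (sp X) (ex u x) / x ^ n) =
        ((∏ v ∈ A, (sx O u x v - 1)) * RR (out X (sp O)) (sp A) (sp X) (sx O u x)) / x ^ n := by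
      intro A _
      rw [mul_div_assoc]
      congr 2
      refine RR_congr _ _ _ _ _ fun v hv => ?_
      have hvO : v ∉ O := fun h => (mem_out.1 hv).2 (subset_span (Finset.mem_coe.2 h))
      unfold sx
      rw [if_neg hvO, one_mul]
    rw [Finset.sum_congr rfl h4, ← Finset.sum_div, h3, zero_div]
  have h3 := tendsto_nhds_unique (h1.congr' h2) tendsto_const_nhds
  rw [← Finset.sum_subset (Finset.powerset_mono.2 (sub_inn hO)) ?_] at h3
  · rw [← h3]
    refine Finset.sum_congr rfl fun A hA => ?_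
    rw [if_pos (Finset.mem_powerset.1 hA)]
  · intro A _ hA
    rw [Finset.mem_powerset] at hA
    rw [if_neg hA, zero_mul]

end Pool.Agent.OCY
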