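import Pool.Agent.SPT.Odd
import Pool.Agent.TRL.Fano
import Pool.Agent.TRJ.Lead

/-!
# OCY: one cycle outside of the odd classes (captain: helper19)

`X` is a regular set of nonzero vectors, `O` a subset which spans a hyperplane of the span of `X`; the
weights are `-exp (x u v)` for `v ∈ O` and `exp (x u v)` for the other vectors.  GOAL (`St_MAIN`): if some
vector outside of the hyperplane has `u v ≠ 0` then the polynomial of the spanning sets is not zero for
some `x > 0`.  All sums are real, `RR B K T x` is the sum over the subsets of `B` which span `T` together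
with `K`.  The lowest order for `x → 0` is one, two or four.
-/

set_option autoImplicit false

open Submodule Module Filter Topology

namespace Pool.Agent.OCY

open Pool.Agent.SPT.Odd Pool.Agent.TRL

/-- the span of a finite set -/
abbrev sp {V : Type} [AddCommGroup V] [Module (ZMod 2) V] (F : Finset V) : Submodule (ZMod 2) V :=
  span (ZMod 2) (F : Set V)

/-- the rank of a subspace -/
noncomputable abbrev rk {V : Type} [AddCommGroup V] [Module (ZMod 2) V] (K : Submodule (ZMod 2) V) :
    ℕ := finrank (ZMod 2) K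

section Defs

variable {V : Type} [AddCommGroup V] [Module (ZMod 2) V]

/-- the weights `exp (x u)` -/
noncomputable def ex (u : V → ℤ) (x : ℝ) : V → ℝ := fun v => Real.exp (x * (u v : ℝ))

open Classical in
/-- the weights with signs -/
noncomputable def sx (O : Finset V) (u : V → ℤ) (x : ℝ) : V → ℝ :=
  fun v => (if v ∈ O then -1 else 1) * ex u x v

open Classical in
/-- the sum over the subsets of `B` with `c` elements which span `T` together with `K` -/
noncomputable def tau (B : Finset V) (K T : Submodule (ZMod 2) V) (u : V → ℤ) (c : ℕ) : ℤ :=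
  ∑ W ∈ B.powersetCard c, if K ⊔ sp W = T then ∏ v ∈ W, u v else 0

open Classical in
/-- the sum of `u` over the elements of `F` in the class of `v` modulo `G` -/
noncomputable def cs (F : Finset V) (u : V → ℤ) (G : Submodule (ZMod 2) V) (v : V) : ℤ :=
  ∑ w ∈ F.filter (fun w => w + v ∈ G), u w

open Classical in
/-- the product of `x` over the elements of `F` in the class of `v` modulo `G`, minus one -/
noncomputable def yy (F : Finset V) (x : V → ℝ) (G : Submodule (ZMod 2) V) (v : V) : ℝ :=
  ∏ w ∈ F.filter (fun w => w + v ∈ G), x w - 1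

open Classical in
/-- the elements of `X` outside of the subspace `M` -/
noncomputable def out (X : Finset V) (M : Submodule (ZMod 2) V) : Finset V :=
  X.filter (fun v => v ∉ M)

open Classical in
/-- the elements of `X` in the subspace `M` -/
noncomputable def inn (X : Finset V) (M : Submodule (ZMod 2) V) : Finset V :=
  X.filter (fun v => v ∈ M)

/-- `O` spans a hyperplane of the span of `X`. -/
structure Hyp (X O : Finset V) : Prop where
  reg : Reg X
  zero : (0 : V) ∉ X
  sub : O ⊆ X
  hyp : rk (sp O) + 1 = rk (sp X)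

end Defs

/-- [LIM] The lowest order.
Proof. As `TRG/LIM.lean` (there for `Fin 5 → ZMod 2`, complex). Term by term: `W` with `W.card < c` cannot
span `T` together with `K`; `W.card = c`: `∏ (exp (x u) - 1) / x ^ c → ∏ u`; `W.card > c`: the limit is
`0`. Second part: multiply by `x ^ (c - n)`. -/
def St_LIM : Prop :=
  ∀ (V : Type) [AddCommGroup V] [Module (ZMod 2) V] [DecidableEq V] (B : Finset V)
    (K T : Submodule (ZMod 2) V) (u : V → ℤ) (c : ℕ), FiniteDimensional (ZMod 2) T →
    FiniteDimensional (ZMod 2) K → rk K + c = rk T →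
    Tendsto (fun x : ℝ => RR B K T (ex u x) / x ^ c) (𝓝[>] 0) (𝓝 ((tau B K T u c : ℤ) : ℝ)) ∧
    ∀ n < c, Tendsto (fun x : ℝ => RR B K T (ex u x) / x ^ n) (𝓝[>] 0) (𝓝 0)

/-- [ORD] The coefficient of order `n`.
Proof. Let `Y = inn X (sp O)`, `F = out X (sp O)`. `RR X ⊥ (sp X) y = ∑ A ∈ Y.powerset, (∏ v ∈ A, (y v - 1)) *
RR F (sp A) (sp X) y` (`TRJ.sum_split`), and `sx = ex` on `F`. Divide by `x ^ n` and let `x → 0`: if `A ⊆ O`
the product tends to `(-2) ^ A.card`, otherwise to `0`. -/
def St_ORD : Prop :=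
  ∀ (V : Type) [AddCommGroup V] [Module (ZMod 2) V] [DecidableEq V] (X O : Finset V) (u : V → ℤ),
    O ⊆ X → (∀ x : ℝ, 0 < x → RR X ⊥ (sp X) (sx O u x) = 0) →
    ∀ (n : ℕ) (ρ : Submodule (ZMod 2) V → ℝ),
    (∀ A ⊆ inn X (sp O), Tendsto (fun x : ℝ => RR (out X (sp O)) (sp A) (sp X) (ex u x) / x ^ n)
      (𝓝[>] 0) (𝓝 (ρ (sp A)))) →
    ∑ A ∈ O.powerset, (-2 : ℝ) ^ A.card * ρ (sp A) = 0

/-- [COH] Coherence.
Proof. Only the `A` with `rk (sp A) = d` contribute; group by `K = sp A`: for each `K` the sum of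
`(-2) ^ A.card` over the `A ⊆ O` with `sp A = K` is `RR (inn O K) ⊥ K (-1)`, which has the sign of
`(-1) ^ d` (`TRJ.pos_box'` in `TRJ/Weighted.lean`). So all terms have the same sign. -/
def St_COH : Prop :=
  ∀ (V : Type) [AddCommGroup V] [Module (ZMod 2) V] [DecidableEq V] (O : Finset V), (0 : V) ∉ O →
    ∀ (ρ : Submodule (ZMod 2) V → ℝ) (d : ℕ) (ε : ℝ), (ε = 1 ∨ ε = -1) →
    (∀ A ⊆ O, rk (sp A) ≠ d → ρ (sp A) = 0) → (∀ A ⊆ O, 0 ≤ ε * ρ (sp A)) →
    ∑ A ∈ O.powerset, (-2 : ℝ) ^ A.card * ρ (sp A) = 0 → ∀ A ⊆ O, ρ (sp A) = 0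

/-- [R1] Corank one. Proof. Every nonempty subset of `F` spans `T` together with `K`. -/
def St_R1 : Prop :=
  ∀ (V : Type) [AddCommGroup V] [Module (ZMod 2) V] [DecidableEq V] (F : Finset V)
    (K T : Submodule (ZMod 2) V) (x : V → ℝ), FiniteDimensional (ZMod 2) T → K ≤ T →
    rk K + 1 = rk T → (∀ v ∈ F, v ∈ T ∧ v ∉ K) → RR F K T x = ∏ v ∈ F, x v - 1

/-- [R2] Corank two, `F` outside of the hyperplane `M`: a subset of `F` spans `T` together with `K` if
and only if it meets both classes modulo `K`. -/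
def St_R2 : Prop :=
  ∀ (V : Type) [AddCommGroup V] [Module (ZMod 2) V] [DecidableEq V] (F : Finset V)
    (K M T : Submodule (ZMod 2) V) (x : V → ℝ) (p f : V), FiniteDimensional (ZMod 2) T →
    p ∉ K → M = K ⊔ span (ZMod 2) {p} → f ∉ M → T = M ⊔ span (ZMod 2) {f} →
    (∀ v ∈ F, v ∈ T ∧ v ∉ M) → RR F K T x = yy F x K f * yy F x K (f + p)

/-- [R3] Corank three, `F` outside of the hyperplane `M`: a subset of `F` spans `T` together with `K` if
and only if it meets at least three of the four classes modulo `K`.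
Proof. For instance by induction on `F` (`RR_insert`, `e` in one of the classes; `RR F (K ⊔ span {e}) T`
is the polynomial of corank two with three classes `a, b, c` (and the elements of the class of `e`, which
are in `K ⊔ span {e}`): `(1 + y_e) (y_a y_b + y_a y_c + y_b y_c + y_a y_b y_c)`; prove this first, again by
induction). -/
def St_R3 : Prop :=
  ∀ (V : Type) [AddCommGroup V] [Module (ZMod 2) V] [DecidableEq V] (F : Finset V)
    (K M T : Submodule (ZMod 2) V) (x : V → ℝ) (p q f : V), FiniteDimensional (ZMod 2) T →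
    p ∉ K → q ∉ K ⊔ span (ZMod 2) {p} → M = K ⊔ span (ZMod 2) {p} ⊔ span (ZMod 2) {q} → f ∉ M →
    T = M ⊔ span (ZMod 2) {f} → (∀ v ∈ F, v ∈ T ∧ v ∉ M) →
    RR F K T x = yy F x K f * yy F x K (f + p) * yy F x K (f + q) +
      yy F x K f * yy F x K (f + p) * yy F x K (f + p + q) +
      yy F x K f * yy F x K (f + q) * yy F x K (f + p + q) +
      yy F x K (f + p) * yy F x K (f + q) * yy F x K (f + p + q) +
      yy F x K f * yy F x K (f + p) * yy F x K (f + q) * yy F x K (f + p + q)

/-- The sums over the classes modulo the hyperplanes of `sp O` which are spanned by elements of `Z` are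
zero, and the sum over all elements of `F = out X (sp O)` is zero. -/
def Bal {V : Type} [AddCommGroup V] [Module (ZMod 2) V] (X O Z : Finset V) (u : V → ℤ) : Prop :=
  (∀ v ∈ out X (sp O), cs (out X (sp O)) u (sp O) v = 0) ∧
  ∀ A ⊆ Z, rk (sp A) + 2 = rk (sp X) → ∀ v ∈ sp X, v ∉ sp O → cs (out X (sp O)) u (sp A) v = 0

/-- [BAL] From `O` to all elements of the hyperplane.
Proof. Let `A ⊆ inn X (sp O)`, `rk (sp A) + 2 = rk (sp X)`; we may take `A` independent. Induction on the
number of the elements of `A` which are not in `O`. Let `g ∈ A \ O`, `G = sp (A.erase g)`; `sp O / G` has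
dimension two, its three nonzero points are the classes of `g`, `q`, `q + g`. `O` spans `sp O`, so at least
two of the three classes contain elements of `O`. If the class of `g` contains `o ∈ O`: `sp A = G ⊔ span {o}`,
fewer elements outside of `O`. Otherwise there are `o, o' ∈ O` in the two other classes, `o + o' + g ∈ G`.
By induction the sums modulo `G ⊔ span {o}` and modulo `G ⊔ span {o'}` are zero: so the four class sums modulo
`G` of `v, v + o, v + o', v + o + o'` are `b, -b, -b, b`. If `b ≠ 0` then all four classes contain elements of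
`X`, and with `o, o', g` we have seven elements of `X` whose images modulo `G` are the seven points of a
Fano plane: contradiction to `Reg.quotSpan` and `Reg.no_fano`. So `b = 0`. -/
def St_BAL : Prop :=
  ∀ (V : Type) [AddCommGroup V] [Module (ZMod 2) V] [DecidableEq V] (X O : Finset V) (u : V → ℤ),
    Hyp X O → Bal X O O u → Bal X O (inn X (sp O)) u

/-- [CB] Cauchy and Binet. Proof. `TRG/CB.lean` with a general type instead of `E`. -/
def St_CB : Prop :=
  ∀ (V : Type) [DecidableEq V] (c : ℕ) (D : Finset V) (l : V → Fin c → ℤ) (u : V → ℤ)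
    (f : Finset V → ℤ),
  (∀ x : Fin c → V, Function.Injective x → (∀ i, x i ∈ D) →
    f (Finset.univ.image x) = Matrix.det (fun i j => l (x i) j) ^ 2) →
  ∑ W ∈ D.powersetCard c, (∏ v ∈ W, u v) * f W =
    Matrix.det (fun i j => ∑ v ∈ D, u v * l v i * l v j)

/-- [R4] (uses CB) Corank four.
Proof. `K = sp A`. Choose `p₀, p₁, p₂ ∈ O` with `sp O = K ⊔ span {p₀, p₁, p₂}` and `f ∈ X`, `f ∉ sp O`. In the
quotient by `K` the image `X'` of `X` is regular (`Reg.quotSpan`) and the images `t = ![p₀, p₁, p₂, f]` are a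
basis of its span: `Reg.tu` gives `L : V ⧸ K → Fin 4 → ℤ`. CB for `D = out X (sp O)`, `l v = L (mkQ v)`,
`f W = 1` if `K ⊔ sp W = sp X` and `0` otherwise (`Reg.tu`: the determinant is `0, 1, -1`; it is odd if and
only if the four images are independent): `tau D K (sp X) u 4 = det (∑ v ∈ D, u v * l v i * l v j)`. The last
row is zero: `i = 3, j < 3`: `l v 3 = ± 1` for all `v ∈ D`, and for `v, w ∈ D` with `l v j ≠ 0`, `l w j ≠ 0` the
determinant of `v, w` and the two other `t k`, which is `± (l v 3 * l w j - l w 3 * l v j)`, is even, so it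
is zero and `l v 3 * l v j = l w 3 * l w j`: the sum is `±` the sum of `u` over the `v ∈ D` with `l v j` odd, a
class modulo the hyperplane `K ⊔ span {p_k, p_l}` (`{j, k, l} = {0, 1, 2}`), zero by `Bal`. `i = j = 3`: the
sum of all `u v`. -/
def St_R4 : Prop :=
  ∀ (V : Type) [AddCommGroup V] [Module (ZMod 2) V] [DecidableEq V] (X O : Finset V) (u : V → ℤ),
    Hyp X O → Bal X O O u → ∀ A ⊆ O, rk (sp A) + 4 = rk (sp X) →
    tau (out X (sp O)) (sp A) (sp X) u 4 = 0

/-- [FIN] The last step.
Proof. Let `F = out X (sp O)`. By induction on `m ≥ 1`: for all `A ⊆ O` with `rk (sp A) + m = rk (sp X)` and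
all `v ∈ sp X`, `v ∉ sp O`: `cs F u (sp A) v = 0`. `m ≤ 3`: hypotheses. `m ≥ 4`: `K = sp A`, choose independent
`p₁, p₂, p₃ ∈ O` modulo `K` (`K ⊔ sp O` has corank `m - 1 ≥ 3` over `K`; extend `A` by elements of `O`). The
sums modulo `K ⊔ span {p_i}` are zero, so `cs F u K (v + p_i) = - cs F u K v` for all such `v`. If
`cs F u K v ≠ 0` then also for `v + p₁ + p₂`, `v + p₁ + p₃`, `v + p₂ + p₃`: there are elements of `X` in these four
classes. Modulo `K`, with `p₁, p₂, p₃`: seven elements as in `Reg.no_fano_dual` (`a, b, c = p₁, p₂, p₃`,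
`d = v`), contradiction to `Reg.quotSpan`. For `A = ∅`, `m = rk (sp X)`: `cs F u ⊥ v = u v` for `v ∈ F`. -/
def St_FIN : Prop :=
  ∀ (V : Type) [AddCommGroup V] [Module (ZMod 2) V] [DecidableEq V] (X O : Finset V) (u : V → ℤ),
    Hyp X O →
    (∀ m, 1 ≤ m → m ≤ 3 → ∀ A ⊆ O, rk (sp A) + m = rk (sp X) → ∀ v ∈ sp X, v ∉ sp O →
      cs (out X (sp O)) u (sp A) v = 0) →
    ∀ v ∈ out X (sp O), u v = 0

/-- [MAIN] (uses all) -/
def St_MAIN : Prop :=
  ∀ (V : Type) [AddCommGroup V] [Module (ZMod 2) V] [DecidableEq V] (X O : Finset V) (u : V → ℤ),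
    Hyp X O → (∃ v ∈ out X (sp O), u v ≠ 0) → ∃ x : ℝ, 0 < x ∧ RR X ⊥ (sp X) (sx O u x) ≠ 0

end Pool.Agent.OCY
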