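import Pool.Agent.OCY.ORD

/-!
# OCY, module Tools: class sums, hyperplanes, limits (helper19)
-/

set_option autoImplicit false
set_option linter.unusedSectionVars false

open Submodule Module Filter Topology

namespace Pool.Agent.OCY

open Pool.Agent.SPT.Odd Pool.Agent.TRL

variable {V : Type} [AddCommGroup V] [Module (ZMod 2) V]

/-! ### class sums -/

theorem add_cancel_two (a b : V) : a + (a + b) = b := by
  rw [← add_assoc, add_self_two, zero_add]

theorem cs_congr (F : Finset V) (u : V → ℤ) (K : Submodule (ZMod 2) V) {v w : V} (h : v + w ∈ K) :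
    cs F u K v = cs F u K w := by
  classical
  unfold cs
  congr 1
  refine Finset.filter_congr fun a _ => ?_
  have h1 : a + w = (a + v) + (v + w) := by
    rw [add_assoc, add_cancel_two]
  have h2 : a + v = (a + w) + (v + w) := by
    rw [add_comm v w, add_assoc, add_cancel_two]
  constructor
  · intro h3
    rw [h1]
    exact K.add_mem h3 h
  · intro h3
    rw [h2]
    exact K.add_mem h3 h

theorem cs_sup (F : Finset V) (u : V → ℤ) (K : Submodule (ZMod 2) V) (p v : V) (hp : p ∉ K) :
    cs F u (K ⊔ span (ZMod 2) {p}) v = cs F u K v + cs F u K (v + p) := by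
  classical
  unfold cs
  rw [← Finset.sum_union]
  · congr 1
    ext a
    rw [Finset.mem_union, Finset.mem_filter, Finset.mem_filter, Finset.mem_filter, ← and_or_left]
    refine and_congr_right fun _ => ⟨fun h => ?_, fun h => ?_⟩
    · rcases mem_sup_one K p _ h with h1 | h1
      · exact Or.inl h1
      · right
        rw [← add_assoc]
        exact h1
    · rcases h with h1 | h1
      · exact mem_sup_left h1
      · have h2 : a + v = (a + (v + p)) + p := by
          rw [add_assoc, add_assoc, add_self_two, add_zero]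
        rw [h2]
        exact add_mem (mem_sup_left h1) (mem_sup_right (mem_span_singleton_self p))
  · rw [Finset.disjoint_left]
    intro a h1 h2
    rw [Finset.mem_filter] at h1 h2
    apply hp
    have h3 : p = (a + v) + (a + (v + p)) := by
      rw [add_assoc, add_left_comm v a, ← add_assoc a a, add_self_two, zero_add, add_cancel_two]
    rw [h3]
    exact K.add_mem h1.2 h2.2

theorem yy_ex (F : Finset V) (u : V → ℤ) (x : ℝ) (K : Submodule (ZMod 2) V) (v : V) :
    yy F (ex u x) K v = Real.exp (x * (cs F u K v : ℤ)) - 1 := by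
  classical
  unfold yy cs ex
  rw [← Real.exp_sum, ← Finset.mul_sum, Int.cast_sum]

theorem prod_ex (F : Finset V) (u : V → ℤ) (x : ℝ) :
    ∏ v ∈ F, ex u x v = Real.exp (x * ((∑ v ∈ F, u v : ℤ) : ℝ)) := by
  classical
  unfold ex
  rw [← Real.exp_sum, ← Finset.mul_sum, Int.cast_sum]

/-! ### hyperplanes -/

theorem eq_sup (K M : Submodule (ZMod 2) V) [FiniteDimensional (ZMod 2) M] (hKM : K ≤ M)
    (h : rk K + 1 = rk M) {p : V} (hp : p ∈ M) (hpK : p ∉ K) :
    M = K ⊔ span (ZMod 2) {p} := by
  have h0 : FiniteDimensional (ZMod 2) K := Submodule.finiteDimensional_of_le hKM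
  symm
  refine Submodule.eq_of_le_of_finrank_eq (sup_le hKM ((span_singleton_le_iff_mem _ _).2 hp)) ?_
  rw [finrank_sup_one K p hpK]
  exact h

theorem exists_out (K M : Submodule (ZMod 2) V) [FiniteDimensional (ZMod 2) M] (O : Finset V)
    (hO : sp O = M) (hK : K ≤ M) (h : rk K < rk M) : ∃ p ∈ O, p ∉ K := by
  by_contra hno
  push Not at hno
  have h1 : M ≤ K := by
    rw [← hO]
    exact span_le.2 fun v hv => hno v (Finset.mem_coe.1 hv)
  have h2 : rk M ≤ rk K := by
    have : FiniteDimensional (ZMod 2) K := Submodule.finiteDimensional_of_le hK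
    exact Submodule.finrank_mono h1
  omega

theorem sp_insert [DecidableEq V] (A : Finset V) (p : V) :
    sp (insert p A) = sp A ⊔ span (ZMod 2) {p} := by
  show span (ZMod 2) ((insert p A : Finset V) : Set V) = _
  rw [Finset.coe_insert, span_insert, sup_comm]

/-! ### limits -/

theorem lim_exp (a : ℝ) :
    Tendsto (fun x : ℝ => (Real.exp (x * a) - 1) / x) (𝓝[>] 0) (𝓝 a) := by
  have h1 : HasDerivAt (fun x : ℝ => Real.exp (x * a)) (Real.exp (0 * a) * a) 0 := by
    have h2 : HasDerivAt (fun x : ℝ => x * a) a 0 := by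
      simpa using (hasDerivAt_id (0 : ℝ)).mul_const a
    exact h2.exp
  rw [zero_mul, Real.exp_zero, one_mul] at h1
  have h3 := h1.tendsto_slope_zero_right
  refine h3.congr fun x => ?_
  rw [zero_add, zero_mul, Real.exp_zero, smul_eq_mul]
  ring

end Pool.Agent.OCY
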