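import Pool.Agent.OCY.MAIN
import Pool.Agent.TRJ.Weighted
import Pool.Agent.NHT.Adequate
import Pool.Agent.NHT.Defs4

/-!
# OCY, module Use: the alternative for a block (helper19)
-/

set_option autoImplicit false
set_option linter.unusedSectionVars false

open Submodule Module Filter Topology

namespace Pool.Agent.OCY

open Pool.Agent.SPT Pool.Agent.SPT.Rel Pool.Agent.SPT.Odd Pool.Agent.TRL Pool.Agent.NHT
open Pool.Agent.TRA Pool.Agent.TRP Pool.Agent.TRJ

variable {ι V : Type} [DecidableEq ι] [DecidableEq V] [AddCommGroup V] [Module (ZMod 2) V]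

/-- The classes of `P` which are not in `I` contain at most one cycle (no cycle is left when one class
is removed), and every cycle of them has a class with the property `L`. -/
def OneCyc (Cyc : Finset ι → Prop) (P I : Finset ι) (L : ι → Prop) [DecidablePred L] : Prop :=
  I ⊆ P ∧ (∃ i, ¬ Cyc ((P \ I).erase i)) ∧ ¬ Cyc ((P \ I).filter fun i => ¬ L i)

/-- the two cases -/
theorem one_cases {Q : Finset ι} {Cyc : Finset ι → Prop} {r : ι → V} (hB : Block Q Cyc r)
    {I : Finset ι} {L : ι → Prop} [DecidablePred L] (h : OneCyc Cyc Q I L) :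
    span (ZMod 2) ((I.image r : Finset V) : Set V) = span (ZMod 2) ((Q.image r : Finset V) : Set V) ∨
    (rk (sp (I.image r)) + 1 = rk (sp (Q.image r)) ∧
      ∃ i ∈ Q, L i ∧ r i ∉ sp (I.image r)) := by
  classical
  obtain ⟨hI, ⟨i, hi⟩, hL⟩ := h
  by_cases hsp : span (ZMod 2) ((I.image r : Finset V) : Set V) =
      span (ZMod 2) ((Q.image r : Finset V) : Set V)
  · exact Or.inl hsp
  right
  have hIX : I.image r ⊆ Q.image r := Finset.image_mono r hI
  have hle : sp (I.image r) ≤ sp (Q.image r) := span_mono (Finset.coe_subset.2 hIX)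
  have h1 := (hB.co _ ((Finset.erase_subset i _).trans Finset.sdiff_subset)).1 hi
  unfold Co at h1
  rw [hB.image_sdiff ((Finset.erase_subset i _).trans Finset.sdiff_subset)] at h1
  have hsub : Q \ (Q \ I).erase i ⊆ insert i I := by
    intro j hj
    rw [Finset.mem_sdiff, Finset.mem_erase, Finset.mem_sdiff] at hj
    by_cases hji : j = i
    · exact hji ▸ Finset.mem_insert_self _ _
    · by_contra hno
      exact hj.2 ⟨hji, hj.1, fun h2 => hno (Finset.mem_insert_of_mem h2)⟩
  have h2 : sp (Q.image r) ≤ sp (I.image r) ⊔ span (ZMod 2) {r i} := by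
    rw [← sp_insert, ← Finset.image_insert]
    show span (ZMod 2) _ ≤ _
    rw [← h1]
    exact span_mono (Finset.coe_subset.2 (Finset.image_mono r hsub))
  have hri : r i ∉ sp (I.image r) := by
    intro h3
    apply hsp
    refine le_antisymm hle (h2.trans (sup_le le_rfl ((span_singleton_le_iff_mem _ _).2 h3)))
  have hrk := rk_sup (sp (I.image r)) (r i) hri
  have hlt : rk (sp (I.image r)) < rk (sp (Q.image r)) :=
    Submodule.finrank_lt_finrank_of_lt (lt_of_le_of_ne hle hsp)
  have hge : rk (sp (Q.image r)) ≤ rk (sp (I.image r) ⊔ span (ZMod 2) {r i}) := rk_mono h2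
  refine ⟨by omega, ?_⟩
  by_contra hno
  push Not at hno
  have h3 := (hB.co _ ((Finset.filter_subset _ _).trans Finset.sdiff_subset)).1 hL
  unfold Co at h3
  rw [hB.image_sdiff ((Finset.filter_subset _ _).trans Finset.sdiff_subset)] at h3
  apply hsp
  refine le_antisymm hle ?_
  show span (ZMod 2) _ ≤ _
  rw [← h3]
  refine span_le.2 fun v hv => ?_
  obtain ⟨j, hj, rfl⟩ := Finset.mem_image.1 (Finset.mem_coe.1 hv)
  rw [Finset.mem_sdiff, Finset.mem_filter, Finset.mem_sdiff] at hj
  by_cases hjI : j ∈ I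
  · exact subset_span (Finset.mem_coe.2 (Finset.mem_image_of_mem r hjI))
  · have hjL : L j := by
      by_contra h4
      exact hj.2 ⟨⟨hj.1, hjI⟩, h4⟩
    exact hno j hj.1 hjL

/-- the hypothesis of the main theorem -/
theorem hyp_block {Q : Finset ι} {Cyc : Finset ι → Prop} {r : ι → V} (hB : Block Q Cyc r)
    (hreg : Reg (Q.image r)) {I : Finset ι} (hI : I ⊆ Q)
    (h : rk (sp (I.image r)) + 1 = rk (sp (Q.image r))) : Hyp (Q.image r) (I.image r) := by
  refine ⟨hreg, ?_, Finset.image_mono r hI, h⟩
  intro h0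
  obtain ⟨i, hi, h1⟩ := Finset.mem_image.1 h0
  exact hB.ne i hi h1

/-- **Weights**: if the vectors `d` with the property `Sh` are orthogonal to `w` and have an even sum
over `I`, and the classes outside of `I` contain at most one cycle, which has a class with
`w i ≠ 0`, then there are weights. -/
theorem cycle_weighted (hMAIN : St_MAIN) (Q : Finset ι) (Cyc : Finset ι → Prop) (r : ι → V)
    (hB : Block Q Cyc r) (hreg : Reg (Q.image r)) (Sh : (ι → ℤ) → Prop) (I : Finset ι) (w : ι → ℤ)
    (hsh : ∀ d, Sh d → Even (∑ i ∈ I, d i) ∧ ∑ i ∈ Q, w i * d i = 0)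
    (h : OneCyc Cyc Q I fun i => w i ≠ 0) : Weighted Cyc Q Sh := by
  classical
  -- the inverse map
  obtain ⟨u, hu⟩ : ∃ u : V → ℤ, ∀ i ∈ Q, u (r i) = w i := by
    refine ⟨fun v => if h : ∃ i ∈ Q, r i = v then w h.choose else 0, fun i hi => ?_⟩
    have h : ∃ j ∈ Q, r j = r i := ⟨i, hi, rfl⟩
    show (if h : ∃ j ∈ Q, r j = r i then w h.choose else 0) = w i
    rw [dif_pos h]
    exact congrArg w (hB.inj h.choose_spec.1 hi h.choose_spec.2)
  have hI := h.1
  have hmem : ∀ i ∈ Q, (r i ∈ I.image r ↔ i ∈ I) := by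
    intro i hi
    refine ⟨fun h1 => ?_, fun h1 => Finset.mem_image_of_mem r h1⟩
    obtain ⟨j, hj, hji⟩ := Finset.mem_image.1 h1
    exact hB.inj (hI hj) hi hji ▸ hj
  -- the weights
  have hprod : ∀ (t : ℝ) (d : ι → ℤ), Even (∑ i ∈ I, d i) → ∑ i ∈ Q, w i * d i = 0 →
      ∏ i ∈ Q, ((if i ∈ I then (-1 : ℂ) else 1) * Complex.exp ((t : ℂ) * (w i : ℂ))) ^ d i = 1 := by
    intro t d h1 h2
    have h3 : ∀ i ∈ Q, ((if i ∈ I then (-1 : ℂ) else 1) *
        Complex.exp ((t : ℂ) * (w i : ℂ))) ^ d i =
        (if i ∈ I then (-1 : ℂ) ^ d i else 1) * Complex.exp ((t : ℂ) * ((w i * d i : ℤ) : ℂ)) := by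
      intro i _
      rw [mul_zpow, ← Complex.exp_int_mul]
      congr 1
      · split_ifs
        · rfl
        · exact one_zpow _
      · congr 1
        push_cast
        ring
    rw [Finset.prod_congr rfl h3, Finset.prod_mul_distrib, ← Complex.exp_sum, ← Finset.mul_sum,
      ← Int.cast_sum, h2, Int.cast_zero, mul_zero, Complex.exp_zero, mul_one,
      ← Finset.prod_filter, Finset.filter_mem_eq_inter, Finset.inter_eq_right.2 hI]
    have h4 : ∀ s : Finset ι, ∏ i ∈ s, (-1 : ℂ) ^ d i = (-1 : ℂ) ^ (∑ i ∈ s, d i) := by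
      intro s
      induction s using Finset.induction_on with
      | empty => rw [Finset.prod_empty, Finset.sum_empty, _root_.zpow_zero]
      | insert a s ha ih =>
        rw [Finset.prod_insert ha, Finset.sum_insert ha,
          zpow_add₀ (neg_ne_zero.2 (one_ne_zero : (1 : ℂ) ≠ 0)), ih]
    rw [h4]
    exact h1.neg_one_zpow
  -- it is enough to find `t`
  have key : ∀ (t : ℝ) (x' : V → ℂ), (∀ i ∈ Q, x' (r i) =
      (if i ∈ I then (-1 : ℂ) else 1) * Complex.exp ((t : ℂ) * (w i : ℂ))) →
      PP (Q.image r) ⊥ x' ≠ 0 → Weighted Cyc Q Sh := by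
    intro t x' hx' hne
    refine ⟨fun i => (if i ∈ I then (-1 : ℂ) else 1) * Complex.exp ((t : ℂ) * (w i : ℂ)),
      fun i _ => mul_ne_zero ?_ (Complex.exp_ne_zero _), fun d hd => ?_, Or.inl ?_⟩
    · split_ifs
      · exact neg_ne_zero.2 one_ne_zero
      · exact one_ne_zero
    · exact hprod t d (hsh d hd).1 (hsh d hd).2
    · rw [← thm_Forest ι V Q Cyc r hB _ x' hx']
      exact hne
  rcases one_cases hB h with h1 | ⟨h1, i, hi, hiw, hri⟩
  · refine key 0 (fun v => if v ∈ I.image r then -1 else 1) ?_ ?_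
    · intro i hi
      show (if r i ∈ I.image r then (-1 : ℂ) else 1) = _
      rw [Complex.ofReal_zero, zero_mul, Complex.exp_zero, mul_one]
      by_cases hiI : i ∈ I
      · rw [if_pos hiI, if_pos ((hmem i hi).2 hiI)]
      · rw [if_neg hiI, if_neg fun h2 => hiI ((hmem i hi).1 h2)]
    · have h2 := odd_main V (Q.image r) (fun v => if v ∈ I.image r then (-1 : ℂ) else 1)
        (fun v _ => by
          show (if v ∈ I.image r then (-1 : ℂ) else 1) = 1 ∨
            (if v ∈ I.image r then (-1 : ℂ) else 1) = -1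
          split_ifs
          · exact Or.inr rfl
          · exact Or.inl rfl) (by
          rw [← h1]
          congr 1
          ext v
          constructor
          · rintro ⟨_, h3⟩
            by_contra h4
            rw [if_neg fun h5 => h4 (Finset.mem_coe.2 h5)] at h3
            norm_num at h3
          · intro h3
            exact ⟨Finset.mem_coe.2 (Finset.image_mono r hI (Finset.mem_coe.1 h3)),
              if_pos (Finset.mem_coe.1 h3)⟩)
      intro h3
      rw [h3, norm_zero] at h2
      norm_num at h2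
  · obtain ⟨t, ht, hne⟩ := hMAIN V (Q.image r) (I.image r) u (hyp_block hB hreg hI h1)
      ⟨r i, mem_out.2 ⟨Finset.mem_image_of_mem r hi, hri⟩, by rw [hu i hi]; exact hiw⟩
    refine key t (fun v => ((sx (I.image r) u t v : ℝ) : ℂ)) ?_ ?_
    · intro i hi
      show ((sx (I.image r) u t (r i) : ℝ) : ℂ) = _
      unfold sx ex
      rw [hu i hi]
      by_cases hiI : i ∈ I
      · rw [if_pos hiI, if_pos ((hmem i hi).2 hiI)]
        push_cast
        rfl
      · rw [if_neg hiI, if_neg fun h2 => hiI ((hmem i hi).1 h2)]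
        push_cast
        rfl
    · rw [PP_real (Q.image r) ⊥ (sx (I.image r) u t) _ fun v _ => rfl, bot_sup_eq]
      intro h2
      exact hne (Complex.ofReal_eq_zero.1 h2)

/-- **The alternative for a block**: the set `I` meets all short vectors in an even number of classes,
and the classes outside of `I` contain at most one cycle, which has a class with `T ≤ |a i|`. -/
theorem cycle_use (hMAIN : St_MAIN) (Q : Finset ι) (Cyc : Finset ι → Prop) (r : ι → V)
    (hB : Block Q Cyc r) (hreg : Reg (Q.image r)) (a u : V → ℤ) (C T : ℕ)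
    (hF : Follows (Q.image r) a u C T) (I : Finset ι)
    (hev : ∀ d, Short Q (fun i => a (r i)) T d → Even (∑ i ∈ I, d i))
    (h : OneCyc Cyc Q I fun i => (T : ℤ) ≤ |a (r i)|) : NZu (Q.image r) u := by
  classical
  by_contra hno
  have hI := h.1
  have hIX : I.image r ⊆ Q.image r := Finset.image_mono r hI
  -- equal sums of `u` mean an even number of elements of `I`
  have hpar : ∀ S ⊆ Q.image r, ∀ S' ⊆ Q.image r, su u S = su u S' →
      Even ((S ∩ I.image r).card + (S' ∩ I.image r).card) := by
    intro S hS S' hS' hsu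
    have hsm := small_of_rel (Q.image r) a u C T hF _ (rel_of_su (Q.image r) u S S' hS hS' hsu)
    obtain ⟨d, hd⟩ : ∃ d : V → ℤ, d = fun v => ic S v - ic S' v := ⟨_, rfl⟩
    rw [← hd] at hsm
    obtain ⟨d', hd'⟩ : ∃ d' : ι → ℤ, d' = fun i => if i ∈ Q then d (r i) else 0 := ⟨_, rfl⟩
    have hd'1 : ∀ i ∈ Q, d' i = d (r i) := by
      intro i h
      rw [hd']
      exact if_pos h
    have hsh : Short Q (fun i => a (r i)) T d' := by
      refine ⟨fun i => ?_, fun i h => ?_, ?_⟩
      · by_cases h : i ∈ Q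
        · rw [hd'1 i h]
          exact hsm.1 (r i)
        · rw [hd']
          exact Or.inr (Or.inl (if_neg h))
      · rw [hd']
        exact if_neg h
      · have h1 := hsm.2.2
        rw [Finset.sum_image hB.inj] at h1
        rw [Finset.sum_congr rfl fun i hi => by rw [hd'1 i hi]]
        exact h1
    have h1 := hev d' hsh
    have h2 : ∑ i ∈ I, d' i = ∑ v ∈ I.image r, d v := by
      rw [Finset.sum_image (hB.inj.mono (Finset.coe_subset.2 hI))]
      exact Finset.sum_congr rfl fun i hi => hd'1 i (hI hi)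
    rw [h2, hd, Finset.sum_sub_distrib, sum_ic, sum_ic, Int.even_sub, Int.even_coe_nat,
      Int.even_coe_nat] at h1
    exact Nat.even_add.2 h1
  have hzero : ∀ z : ℂ, z ≠ 0 → PP (Q.image r) ⊥ (wt (I.image r) u z) = 0 := by
    intro z hz
    rw [PP_cc]
    refine psi_zero (Q.image r) u hno (fun S => ∏ v ∈ S, wt (I.image r) u z v)
      fun S hS S' hS' hsu => ?_
    have h1 := hpar S hS S' hS' hsu
    show ∏ v ∈ S, wt (I.image r) u z v = ∏ v ∈ S', wt (I.image r) u z v
    rw [prod_wt _ _ _ hz, prod_wt _ _ _ hz, hsu]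
    congr 1
    rw [Nat.even_add] at h1
    by_cases h6 : Even (S ∩ I.image r).card
    · rw [h6.neg_one_pow, (h1.1 h6).neg_one_pow]
    · rw [(Nat.not_even_iff_odd.1 h6).neg_one_pow,
        (Nat.not_even_iff_odd.1 fun h7 => h6 (h1.2 h7)).neg_one_pow]
  rcases one_cases hB h with h1 | ⟨h1, i, hi, hiw, hri⟩
  · have h2 := odd_main V (Q.image r) (wt (I.image r) u 1)
      (fun v _ => by
        unfold wt
        rw [one_zpow, mul_one]
        split_ifs
        · exact Or.inr rfl
        · exact Or.inl rfl) (by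
        rw [← h1]
        congr 1
        ext v
        unfold wt
        rw [Set.mem_ofPred_eq, one_zpow, mul_one]
        constructor
        · rintro ⟨_, h3⟩
          by_contra h4
          rw [if_neg fun h5 => h4 (Finset.mem_coe.2 h5)] at h3
          norm_num at h3
        · intro h3
          exact ⟨hIX (Finset.mem_coe.1 h3), if_pos (Finset.mem_coe.1 h3)⟩)
    rw [hzero 1 one_ne_zero, norm_zero] at h2
    norm_num at h2
  · have hui : u (r i) ≠ 0 := by
      have h2 := (hF {r i} (Finset.singleton_subset_iff.2 (Finset.mem_image_of_mem r hi)) ∅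
        (Finset.empty_subset _)).1
      rw [Finset.sum_singleton, Finset.sum_empty, Finset.sum_singleton, Finset.sum_empty,
        sub_zero] at h2
      exact h2 hiw
    obtain ⟨t, ht, hne⟩ := hMAIN V (Q.image r) (I.image r) u (hyp_block hB hreg hI h1)
      ⟨r i, mem_out.2 ⟨Finset.mem_image_of_mem r hi, hri⟩, hui⟩
    apply hne
    have h2 := hzero ((Real.exp t : ℝ) : ℂ) (by
      rw [Complex.ofReal_exp]
      exact Complex.exp_ne_zero _)
    rw [PP_real (Q.image r) ⊥ (sx (I.image r) u t) _ fun v _ => ?_, bot_sup_eq] at h2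
    · exact Complex.ofReal_eq_zero.1 h2
    · unfold wt sx ex
      rw [Real.exp_mul, Real.rpow_intCast]
      push_cast
      congr 1
      split_ifs <;> simp

end Pool.Agent.OCY
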